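import Mathlib

/-!
# A fixed vector for a group of unipotent operators (Kolchin), over an arbitrary field
-/

set_option autoImplicit false

namespace Pool.Agent.Lib.Helper71

open MonoidAlgebra Module

section Trace

variable {K : Type*} [Field K] {M : Type*} [AddCommGroup M] [Module K M] [FiniteDimensional K M]

/-- A unipotent operator has trace equal to the dimension. -/
theorem trace_of_unipotent (f : M →ₗ[K] M) (hf : IsNilpotent (f - 1)) :
    LinearMap.trace K M f = (Module.finrank K M : K) := by
  have h1 : LinearMap.trace K M (f - 1) = 0 :=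
    (LinearMap.isNilpotent_trace_of_isNilpotent hf).eq_zero
  rw [map_sub, LinearMap.trace_one, sub_eq_zero] at h1
  exact h1

/-- Nondegeneracy of the trace form. -/
theorem eq_zero_of_trace (A : M →ₗ[K] M)
    (h : ∀ f : M →ₗ[K] M, LinearMap.trace K M (A * f) = 0) : A = 0 := by
  ext v
  by_contra hv
  obtain ⟨φ, hφ⟩ := Module.Projective.exists_dual_ne_zero K hv
  apply hφ
  have h1 := h (LinearMap.toSpanSingleton K M v ∘ₗ φ)
  have h2 : A * (LinearMap.toSpanSingleton K M v ∘ₗ φ) = dualTensorHom K M M (φ ⊗ₜ A v) := by
    ext x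
    simp
  rw [h2, LinearMap.trace_eq_contract_apply] at h1
  simpa using h1

end Trace

section AlgClosed

variable {K : Type*} [Field K] [IsAlgClosed K] {G : Type*} [Group G]
  {M : Type*} [AddCommGroup M] [Module K M] [Module (MonoidAlgebra K G) M]
  [IsScalarTower K (MonoidAlgebra K G) M] [FiniteDimensional K M]

/-- Burnside's theorem on matrix algebras, for modules over a group algebra. -/
theorem burnside_surj [IsSimpleModule (MonoidAlgebra K G) M] (f : M →ₗ[K] M) :
    ∃ r : MonoidAlgebra K G, Algebra.lsmul K K M r = f := by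
  classical
  have hbij := IsSimpleModule.algebraMap_end_bijective_of_isAlgClosed (A := MonoidAlgebra K G)
    (V := M) K
  let f' : End (End (MonoidAlgebra K G) M) M :=
    { toFun := f
      map_add' := f.map_add
      map_smul' := by
        intro φ m
        obtain ⟨k, rfl⟩ := hbij.2 φ
        simp }
  let B := Module.finBasis K M
  obtain ⟨r, hr⟩ := jacobson_density f' (Finset.univ.image B)
  refine ⟨r, ?_⟩
  apply B.ext
  intro i
  have := hr (B i) (Finset.mem_image_of_mem _ (Finset.mem_univ i))
  simpa using! this.symm

/-- A group of unipotent operators acting irreducibly over an algebraically closed field is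
trivial. -/
theorem trivial_of_simple [IsSimpleModule (MonoidAlgebra K G) M]
    (hu : ∀ g : G, IsNilpotent (Algebra.lsmul K K M (MonoidAlgebra.of K G g) - 1)) (g : G) (m : M) :
    MonoidAlgebra.of K G g • m = m := by
  have h0 : Algebra.lsmul K K M (MonoidAlgebra.of K G g) - 1 = 0 := by
    apply eq_zero_of_trace
    intro f
    obtain ⟨r, rfl⟩ := burnside_surj (G := G) f
    induction r using MonoidAlgebra.induction_on with
    | of h =>
      have e : (Algebra.lsmul K K M (MonoidAlgebra.of K G g) - 1) *
          Algebra.lsmul K K M (MonoidAlgebra.of K G h) =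
          Algebra.lsmul K K M (MonoidAlgebra.of K G (g * h)) -
          Algebra.lsmul K K M (MonoidAlgebra.of K G h) := by
        rw [sub_mul, one_mul, map_mul, map_mul]
      rw [e, map_sub, trace_of_unipotent _ (hu _), trace_of_unipotent _ (hu _), sub_self]
    | add x y hx hy =>
      rw [map_add, mul_add, map_add, hx, hy, add_zero]
    | smul k x hx =>
      rw [map_smul, mul_smul_comm, map_smul, hx, smul_zero]
  have h1 := LinearMap.congr_fun h0 m
  simpa [sub_eq_zero] using h1

/-- A group of unipotent operators on a nonzero finite-dimensional space over an algebraically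
closed field has a nonzero fixed vector. -/
theorem exists_fixed_of_algClosed [Nontrivial M]
    (hu : ∀ g : G, IsNilpotent (Algebra.lsmul K K M (MonoidAlgebra.of K G g) - 1)) :
    ∃ m : M, m ≠ 0 ∧ ∀ g : G, MonoidAlgebra.of K G g • m = m := by
  have hart : IsArtinian (MonoidAlgebra K G) M := isArtinian_of_tower K inferInstance
  obtain ⟨S, hS, -⟩ := (IsAtomic.eq_bot_or_exists_atom_le (⊤ : Submodule (MonoidAlgebra K G) M)).resolve_left
    (by exact top_ne_bot)
  have hsimple : IsSimpleModule (MonoidAlgebra K G) S := isSimpleModule_iff_isAtom.2 hS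
  have hfd : FiniteDimensional K S := by
    exact Module.Finite.of_injective (S.restrictScalars K).subtype Subtype.val_injective
  have hu' : ∀ g : G, IsNilpotent (Algebra.lsmul K K S (MonoidAlgebra.of K G g) - 1) := by
    intro g
    obtain ⟨n, hn⟩ := hu g
    refine ⟨n, ?_⟩
    have key : ∀ (k : ℕ) (s : S), (((Algebra.lsmul K K S (MonoidAlgebra.of K G g) - 1) ^ k) s : M) =
        ((Algebra.lsmul K K M (MonoidAlgebra.of K G g) - 1) ^ k) (s : M) := by
      intro k
      induction k with
      | zero => intro s; simp
      | succ k ih =>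
        intro s
        rw [pow_succ, pow_succ, Module.End.mul_apply, Module.End.mul_apply, ih]
        simp
    ext s
    rw [key, hn]
    simp
  have : Nontrivial S := IsSimpleModule.nontrivial (MonoidAlgebra K G) S
  obtain ⟨s, hs⟩ := exists_ne (0 : S)
  refine ⟨s, fun h => hs (Subtype.ext h), fun g => ?_⟩
  have := trivial_of_simple hu' g s
  exact congrArg Subtype.val this

end AlgClosed

section General

/-- The same, for representations. -/
theorem exists_fixed_rep_of_algClosed {K : Type*} [Field K] [IsAlgClosed K] {G : Type*} [Group G]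
    {M : Type*} [AddCommGroup M] [Module K M] [FiniteDimensional K M] [Nontrivial M]
    (ρ : Representation K G M) (hu : ∀ g : G, IsNilpotent (ρ g - 1)) :
    ∃ m : M, m ≠ 0 ∧ ∀ g : G, ρ g m = m := by
  let _ : Module (MonoidAlgebra K G) M := Module.compHom M ρ.asAlgebraHom.toRingHom
  have hsmul : ∀ (r : MonoidAlgebra K G) (m : M), r • m = ρ.asAlgebraHom r m := fun _ _ => rfl
  have : IsScalarTower K (MonoidAlgebra K G) M :=
    ⟨fun x r m => by rw [hsmul, hsmul, map_smul]; rfl⟩
  have e : ∀ g : G, Algebra.lsmul K K M (MonoidAlgebra.of K G g) = ρ g := by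
    intro g
    ext m
    rw [Algebra.lsmul_apply, hsmul, Representation.asAlgebraHom_of]
  obtain ⟨m, hm0, hm⟩ := exists_fixed_of_algClosed (K := K) (G := G) (M := M)
    (fun g => by rw [e]; exact hu g)
  refine ⟨m, hm0, fun g => ?_⟩
  have := hm g
  rwa [hsmul, Representation.asAlgebraHom_of] at this

variable {k : Type*} [Field k] {G : Type*} [Group G]
  {V : Type*} [AddCommGroup V] [Module k V] [FiniteDimensional k V] [Nontrivial V]

open TensorProduct in
/-- **Kolchin's theorem** (fixed vector form), over an arbitrary field. -/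
theorem exists_fixed (ρ : Representation k G V) (hu : ∀ g : G, IsNilpotent (ρ g - 1)) :
    ∃ v : V, v ≠ 0 ∧ ∀ g : G, ρ g v = v := by
  classical
  let K := AlgebraicClosure k
  let ρK : Representation K G (K ⊗[k] V) :=
    ((Module.End.baseChangeHom k K V : End k V →ₐ[k] End K (K ⊗[k] V)) :
      End k V →* End K (K ⊗[k] V)).comp ρ
  have hρK : ∀ g, ρK g = (ρ g).baseChange K := fun g => rfl
  have hnt : Nontrivial (K ⊗[k] V) := inferInstance
  have huK : ∀ g : G, IsNilpotent (ρK g - 1) := by
    intro g
    obtain ⟨n, hn⟩ := hu g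
    refine ⟨n, ?_⟩
    have e : ρK g - 1 = Module.End.baseChangeHom k K V (ρ g - 1) := by
      rw [map_sub, map_one]; rfl
    rw [e, ← map_pow, hn, map_zero]
  obtain ⟨u, hu0, hfix⟩ := exists_fixed_rep_of_algClosed ρK huK
  let B := Module.Basis.ofVectorSpace k K
  let Φ := TensorProduct.equivFinsuppOfBasisLeft (N := V) B
  have hequiv : ∀ (g : G) (x : K ⊗[k] V) (i), Φ (ρK g x) i = ρ g (Φ x i) := by
    intro g x i
    induction x using TensorProduct.induction_on with
    | zero => simp
    | tmul y v =>
      rw [hρK, LinearMap.baseChange_tmul]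
      simp only [Φ, TensorProduct.equivFinsuppOfBasisLeft_apply_tmul_apply, map_smul]
    | add x y hx hy => rw [map_add, map_add, Finsupp.add_apply, hx, hy, map_add,
        Finsupp.add_apply, map_add]
  have hne : Φ u ≠ 0 := by
    intro h
    exact hu0 (Φ.injective (by rw [h, map_zero]))
  obtain ⟨i, hi⟩ := Finsupp.ne_iff.1 hne
  refine ⟨Φ u i, by simpa using hi, fun g => ?_⟩
  rw [← hequiv, hfix]

end General

end Pool.Agent.Lib.Helper71
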