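import Mathlib

/-!
# The first Grigorchuk group: definition

The vertices of the rooted binary tree are the finite words over `{0,1}`, here `List Bool` with
`false = 0` and `true = 1`.
-/

set_option autoImplicit false

namespace Pool.Agent.Lib.Helper71

/-- `a` changes the first letter of a word and leaves the rest unchanged. -/
def aFun : List Bool → List Bool
  | [] => []
  | x :: w => (!x) :: w

mutual

/-- `b(0w) = 0 a(w)`, `b(1w) = 1 c(w)`. -/
def bFun : List Bool → List Bool
  | [] => []
  | false :: w => false :: aFun w
  | true :: w => true :: cFun w

/-- `c(0w) = 0 a(w)`, `c(1w) = 1 d(w)`. -/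
def cFun : List Bool → List Bool
  | [] => []
  | false :: w => false :: aFun w
  | true :: w => true :: dFun w

/-- `d(0w) = 0 w`, `d(1w) = 1 b(w)`. -/
def dFun : List Bool → List Bool
  | [] => []
  | false :: w => false :: w
  | true :: w => true :: bFun w

end

theorem aFun_aFun (w : List Bool) : aFun (aFun w) = w := by
  cases w <;> simp [aFun]

theorem bcd_inv (w : List Bool) :
    bFun (bFun w) = w ∧ cFun (cFun w) = w ∧ dFun (dFun w) = w := by
  induction w with
  | nil => simp [bFun, cFun, dFun]
  | cons x w ih =>
    obtain ⟨hb, hc, hd⟩ := ih
    cases x <;> simp [bFun, cFun, dFun, aFun_aFun, hb, hc, hd]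

/-- The automorphism `a` of the rooted binary tree. -/
def a : Equiv.Perm (List Bool) := Function.Involutive.toPerm aFun aFun_aFun

/-- The automorphism `b` of the rooted binary tree. -/
def b : Equiv.Perm (List Bool) := Function.Involutive.toPerm bFun (fun w => (bcd_inv w).1)

/-- The automorphism `c` of the rooted binary tree. -/
def c : Equiv.Perm (List Bool) := Function.Involutive.toPerm cFun (fun w => (bcd_inv w).2.1)

/-- The automorphism `d` of the rooted binary tree. -/
def d : Equiv.Perm (List Bool) := Function.Involutive.toPerm dFun (fun w => (bcd_inv w).2.2)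

/-- The first Grigorchuk group: the group of automorphisms of the rooted binary tree generated by
`a`, `b`, `c`, `d`. -/
def grigorchukGroup : Subgroup (Equiv.Perm (List Bool)) := Subgroup.closure {a, b, c, d}

end Pool.Agent.Lib.Helper71
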