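import Mathlib
import Pool.Agent.Lib.Helper71.GrigDefs

/-!
# The first Grigorchuk group is a 2-group
-/

set_option autoImplicit false

namespace Pool.Agent.Lib.Helper71

@[simp] theorem a_nil : a [] = [] := rfl
@[simp] theorem b_nil : b [] = [] := by simp [b, Function.Involutive.toPerm, bFun]
@[simp] theorem c_nil : c [] = [] := by simp [c, Function.Involutive.toPerm, cFun]
@[simp] theorem d_nil : d [] = [] := by simp [d, Function.Involutive.toPerm, dFun]
@[simp] theorem a_cons (x : Bool) (w : List Bool) : a (x :: w) = (!x) :: w := rfl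
@[simp] theorem b_false (w : List Bool) : b (false :: w) = false :: a w := by
  simp [b, a, Function.Involutive.toPerm, bFun]
@[simp] theorem b_true (w : List Bool) : b (true :: w) = true :: c w := by
  simp [b, c, Function.Involutive.toPerm, bFun]
@[simp] theorem c_false (w : List Bool) : c (false :: w) = false :: a w := by
  simp [c, a, Function.Involutive.toPerm, cFun]
@[simp] theorem c_true (w : List Bool) : c (true :: w) = true :: d w := by
  simp [c, d, Function.Involutive.toPerm, cFun]
@[simp] theorem d_false (w : List Bool) : d (false :: w) = false :: w := by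
  simp [d, Function.Involutive.toPerm, dFun]
@[simp] theorem d_true (w : List Bool) : d (true :: w) = true :: b w := by
  simp [d, b, Function.Involutive.toPerm, dFun]

/-! ### Level-one decomposition -/

/-- `Split g g0 g1`: `g` fixes the first level, acting as `g0` below `0` and as `g1` below `1`. -/
def Split (g g0 g1 : Equiv.Perm (List Bool)) : Prop :=
  g [] = [] ∧ (∀ w, g (false :: w) = false :: g0 w) ∧ ∀ w, g (true :: w) = true :: g1 w

theorem Split.one : Split 1 1 1 := ⟨rfl, fun _ => rfl, fun _ => rfl⟩

theorem Split.mul {g g0 g1 h h0 h1 : Equiv.Perm (List Bool)} (hg : Split g g0 g1)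
    (hh : Split h h0 h1) : Split (g * h) (g0 * h0) (g1 * h1) := by
  obtain ⟨a1, a2, a3⟩ := hg
  obtain ⟨b1, b2, b3⟩ := hh
  refine ⟨?_, fun w => ?_, fun w => ?_⟩
  · simp [Equiv.Perm.mul_apply, a1, b1]
  · simp [Equiv.Perm.mul_apply, a2, b2]
  · simp [Equiv.Perm.mul_apply, a3, b3]

theorem Split.pow {g g0 g1 : Equiv.Perm (List Bool)} (hg : Split g g0 g1) (n : ℕ) :
    Split (g ^ n) (g0 ^ n) (g1 ^ n) := by
  induction n with
  | zero => simpa using Split.one
  | succ n ih => rw [pow_succ, pow_succ, pow_succ]; exact ih.mul hg

theorem Split.eq_one {g : Equiv.Perm (List Bool)} (hg : Split g 1 1) : g = 1 := by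
  obtain ⟨a1, a2, a3⟩ := hg
  ext w : 1
  rcases w with _ | ⟨_ | _, w⟩
  · simpa using a1
  · simpa using a2 w
  · simpa using a3 w

/-- Swapping the two halves by conjugating with `a`. -/
theorem Split.conj_a {g g0 g1 : Equiv.Perm (List Bool)} (hg : Split g g0 g1) :
    Split (a * g * a) g1 g0 := by
  obtain ⟨a1, a2, a3⟩ := hg
  refine ⟨?_, fun w => ?_, fun w => ?_⟩
  · simp [Equiv.Perm.mul_apply, a1]
  · simp [Equiv.Perm.mul_apply, a3]
  · simp [Equiv.Perm.mul_apply, a2]

/-- Having 2-power order. -/
def T (g : Equiv.Perm (List Bool)) : Prop := ∃ n : ℕ, g ^ (2 ^ n) = 1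

theorem T_of_split {g g0 g1 : Equiv.Perm (List Bool)} (hg : Split g g0 g1) (h0 : T g0)
    (h1 : T g1) : T g := by
  obtain ⟨m, hm⟩ := h0
  obtain ⟨n, hn⟩ := h1
  refine ⟨m + n, ?_⟩
  have h := hg.pow (2 ^ (m + n))
  have e0 : g0 ^ (2 ^ (m + n)) = 1 := by rw [pow_add, pow_mul, hm, one_pow]
  have e1 : g1 ^ (2 ^ (m + n)) = 1 := by rw [add_comm, pow_add, pow_mul, hn, one_pow]
  rw [e0, e1] at h
  exact h.eq_one

theorem T_one : T 1 := ⟨0, by simp⟩

theorem T_of_sq {g : Equiv.Perm (List Bool)} (h : T (g * g)) : T g := by
  obtain ⟨n, hn⟩ := h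
  exact ⟨n + 1, by rw [pow_succ, mul_comm, pow_mul, pow_two]; exact hn⟩

theorem T_of_mul_self {g : Equiv.Perm (List Bool)} (h : g * g = 1) : T g :=
  T_of_sq (by rw [h]; exact T_one)

theorem T_comm {x y : Equiv.Perm (List Bool)} (h : T (x * y)) : T (y * x) := by
  obtain ⟨n, hn⟩ := h
  refine ⟨n, ?_⟩
  have : y * x = x⁻¹ * (x * y) * x := by group
  rw [this]
  have h2 : ∀ m : ℕ, (x⁻¹ * (x * y) * x) ^ m = x⁻¹ * (x * y) ^ m * x := by
    intro m
    induction m with
    | zero => simp
    | succ m ih => rw [pow_succ, ih, pow_succ]; group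
  rw [h2, hn]; group

/-! ### The Klein four-group `{1, b, c, d}` -/

/-- The Klein four-group. -/
inductive K4 | e | b | c | d
  deriving DecidableEq

/-- Multiplication in the Klein four-group. -/
def K4.mul : K4 → K4 → K4
  | .e, y => y
  | x, .e => x
  | .b, .b => .e
  | .b, .c => .d
  | .b, .d => .c
  | .c, .b => .d
  | .c, .c => .e
  | .c, .d => .b
  | .d, .b => .c
  | .d, .c => .b
  | .d, .d => .e

/-- Evaluation of Klein four-group elements as tree automorphisms. -/
def ev : K4 → Equiv.Perm (List Bool)
  | .e => 1
  | .b => b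
  | .c => c
  | .d => d

theorem a_mul_a : a * a = 1 := by
  ext w : 1; cases w <;> simp [Equiv.Perm.mul_apply]

theorem table (w : List Bool) :
    (b (b w) = w ∧ c (c w) = w ∧ d (d w) = w) ∧ (b (c w) = d w ∧ b (d w) = c w ∧ c (b w) = d w ∧
      c (d w) = b w ∧ d (b w) = c w ∧ d (c w) = b w) := by
  have haa : ∀ w, a (a w) = w := fun w => by cases w <;> simp
  induction w with
  | nil => simp
  | cons x w ih =>
    obtain ⟨⟨h1, h2, h3⟩, h4, h5, h6, h7, h8, h9⟩ := ih
    cases x <;> simp [*]

theorem ev_mul (x y : K4) : ev (x.mul y) = ev x * ev y := by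
  cases x <;> cases y <;> ext w : 1 <;>
    simp only [K4.mul, ev, Equiv.Perm.mul_apply, Equiv.Perm.one_apply] <;>
    first | rfl | (have h := table w; obtain ⟨⟨h1, h2, h3⟩, h4, h5, h6, h7, h8, h9⟩ := h; simp [*])

theorem ev_sq (x : K4) : ev x * ev x = 1 := by
  rw [← ev_mul]; cases x <;> rfl

/-- The section of a Klein element below `0` is `a` (for `b`, `c`) or trivial. -/
def isBC : K4 → Bool
  | .b => true
  | .c => true
  | _ => false

/-- The section below `0`. -/
def phi0 (x : K4) : Equiv.Perm (List Bool) := if isBC x then a else 1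

/-- The section below `1`. -/
def phi1 : K4 → K4
  | .e => .e
  | .b => .c
  | .c => .d
  | .d => .b

theorem split_ev (x : K4) : Split (ev x) (phi0 x) (ev (phi1 x)) := by
  cases x
  · exact Split.one
  · exact ⟨b_nil, b_false, b_true⟩
  · exact ⟨c_nil, c_false, c_true⟩
  · exact ⟨d_nil, fun w => by simp [ev, phi0, isBC], d_true⟩

/-! ### Words -/

/-- `E [u₁,…,uₗ] = a u₁ a u₂ ⋯ a uₗ`. -/
def E : List K4 → Equiv.Perm (List Bool)
  | [] => 1
  | u :: us => a * ev u * E us

@[simp] theorem E_nil : E [] = 1 := rfl
@[simp] theorem E_cons (u : K4) (us : List K4) : E (u :: us) = a * ev u * E us := rfl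

theorem E_append (us vs : List K4) : E (us ++ vs) = E us * E vs := by
  induction us with
  | nil => simp
  | cons u us ih => simp [ih, mul_assoc]

/-- The product of the sections: `S false us = φ₀(u₁) φ₁(u₂) φ₀(u₃) ⋯`,
`S true us = φ₁(u₁) φ₀(u₂) φ₁(u₃) ⋯`. -/
def S : Bool → List K4 → Equiv.Perm (List Bool)
  | _, [] => 1
  | false, u :: us => phi0 u * S true us
  | true, u :: us => ev (phi1 u) * S false us

/-- The number of `a`s in `S p us`. -/
def cnt : Bool → List K4 → ℕ
  | _, [] => 0
  | false, u :: us => (if isBC u then 1 else 0) + cnt true us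
  | true, _ :: us => cnt false us

theorem cnt_bound (us : List K4) :
    2 * cnt false us ≤ us.length + 1 ∧ 2 * cnt true us ≤ us.length := by
  induction us with
  | nil => simp [cnt]
  | cons u us ih =>
    obtain ⟨h1, h2⟩ := ih
    simp only [cnt, List.length_cons]
    split_ifs <;> omega

theorem cnt_add (us : List K4) : cnt false us + cnt true us = us.countP (fun u => isBC u) := by
  induction us with
  | nil => simp [cnt]
  | cons u us ih =>
    simp only [cnt, List.countP_cons]
    omega

/-- For even length, `E us` fixes the first level with sections `S true us`, `S false us`. -/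
theorem split_E : ∀ us : List K4, Even us.length → Split (E us) (S true us) (S false us)
  | [], _ => Split.one
  | [u], h => by simp at h
  | u :: v :: us, h => by
    have h' : Even us.length := by
      simp only [List.length_cons] at h
      rcases h with ⟨k, hk⟩
      exact ⟨k - 1, by omega⟩
    have ih := split_E us h'
    have h1 := (split_ev u).conj_a.mul ((split_ev v).mul ih)
    have e : a * ev u * a * (ev v * E us) = E (u :: v :: us) := by
      simp [mul_assoc]
    rw [e] at h1
    simpa [S, mul_assoc] using h1

/-- For odd length, the square of `E us` fixes the first level, with sections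
`S true us * S false us` and `S false us * S true us`. -/
theorem split_E_sq (us : List K4) (h : Odd us.length) :
    Split (E us * E us) (S true us * S false us) (S false us * S true us) := by
  rcases us with _ | ⟨u, us⟩
  · simp at h
  · have h' : Even us.length := by
      simp only [List.length_cons] at h
      rcases h with ⟨k, hk⟩
      exact ⟨k, by omega⟩
    have h1 := (split_ev u).mul (split_E us h')
    have h2 := h1.conj_a.mul h1
    have e : a * (ev u * E us) * a * (ev u * E us) = E (u :: us) * E (u :: us) := by
      simp [mul_assoc]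
    rw [e] at h2
    simpa [S, mul_assoc] using h2

/-- `g` can be written with exactly `m` letters `a`. -/
def HasWord (m : ℕ) (g : Equiv.Perm (List Bool)) : Prop :=
  ∃ (k : K4) (vs : List K4), vs.length = m ∧ g = ev k * E vs

theorem E_mul_ev (vs : List K4) (hvs : vs ≠ []) (k : K4) :
    ∃ vs' : List K4, vs'.length = vs.length ∧ E vs * ev k = E vs' := by
  induction vs with
  | nil => exact absurd rfl hvs
  | cons u us ih =>
    rcases us with _ | ⟨v, us⟩
    · exact ⟨[u.mul k], rfl, by simp [ev_mul, mul_assoc]⟩
    · obtain ⟨vs', h1, h2⟩ := ih (by simp)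
      refine ⟨u :: vs', by simp [h1], ?_⟩
      rw [E_cons, mul_assoc, h2, E_cons]

theorem HasWord.one : HasWord 0 1 := ⟨.e, [], rfl, by simp [ev]⟩

theorem HasWord.ev (k : K4) : HasWord 0 (ev k) := ⟨k, [], rfl, by simp⟩

theorem HasWord.a : HasWord 1 a := ⟨.e, [.e], rfl, by simp [Pool.Agent.Lib.Helper71.ev]⟩

theorem HasWord.mul {m n : ℕ} {g h : Equiv.Perm (List Bool)} (hg : HasWord m g)
    (hh : HasWord n h) : HasWord (m + n) (g * h) := by
  obtain ⟨k, vs, h1, rfl⟩ := hg
  obtain ⟨k', vs', h2, rfl⟩ := hh
  rcases eq_or_ne vs [] with rfl | hne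
  · refine ⟨k.mul k', vs', by simpa [← h1] using h2, by simp [ev_mul, mul_assoc]⟩
  · obtain ⟨ws, h3, h4⟩ := E_mul_ev vs hne k'
    refine ⟨k, ws ++ vs', by simp [h3, h1, h2], ?_⟩
    rw [E_append, ← h4]
    simp [mul_assoc]

theorem HasWord.phi0 (x : K4) : HasWord (if isBC x then 1 else 0) (phi0 x) := by
  unfold Pool.Agent.Lib.Helper71.phi0
  split_ifs
  · exact HasWord.a
  · exact HasWord.one

theorem hasWord_S (us : List K4) : HasWord (cnt false us) (S false us) ∧
    HasWord (cnt true us) (S true us) := by
  induction us with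
  | nil => exact ⟨HasWord.one, HasWord.one⟩
  | cons u us ih =>
    refine ⟨(HasWord.phi0 u).mul ih.2, ?_⟩
    simpa [cnt, S] using (HasWord.ev (phi1 u)).mul ih.1

theorem T_of_hasWord {m : ℕ} {g : Equiv.Perm (List Bool)} (hg : HasWord m g)
    (h : ∀ vs : List K4, vs.length = m → T (E vs)) : T g := by
  obtain ⟨k, vs, h1, rfl⟩ := hg
  rcases eq_or_ne vs [] with rfl | hne
  · simpa using T_of_mul_self (ev_sq k)
  · obtain ⟨ws, h3, h4⟩ := E_mul_ev vs hne k
    apply T_comm
    rw [h4]
    exact h ws (by omega)

/-- If all letters are `b` or `c`, the sections are again alternating words. -/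
theorem exact_form : ∀ us : List K4, Even us.length → (∀ u ∈ us, isBC u = true) →
    ∃ os es : List K4, (os ++ es).Perm us ∧ a * S true us = E (os.map phi1) * a ∧
      S false us = E (es.map phi1)
  | [], _, _ => ⟨[], [], by simp, by simp [S], by simp [S]⟩
  | [u], h, _ => by simp at h
  | u :: v :: us, h, hbc => by
    have h' : Even us.length := by
      simp only [List.length_cons] at h
      rcases h with ⟨k, hk⟩
      exact ⟨k - 1, by omega⟩
    obtain ⟨os, es, h1, h2, h3⟩ := exact_form us h' (fun x hx => hbc x (by simp [hx]))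
    have hu : isBC u = true := hbc u (by simp)
    have hv : isBC v = true := hbc v (by simp)
    refine ⟨u :: os, v :: es, ?_, ?_, ?_⟩
    · have : (os ++ v :: es).Perm (v :: us) :=
        (List.perm_middle).trans (h1.cons v)
      simpa using this.cons u
    · simp only [S, phi0, hv, if_true, List.map_cons, E_cons, mul_assoc]
      rw [← mul_assoc, h2]
      simp [mul_assoc]
    · simp only [S, phi0, hu, if_true, List.map_cons, E_cons, mul_assoc]
      rw [h3]

theorem exact_form_sq (us : List K4) (hodd : Odd us.length) (hbc : ∀ u ∈ us, isBC u = true) :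
    ∃ ws : List K4, ws.Perm (us.map phi1) ∧ S false us * S true us = E ws := by
  rcases us with _ | ⟨u, us⟩
  · simp at hodd
  · have h' : Even us.length := by
      simp only [List.length_cons] at hodd
      rcases hodd with ⟨k, hk⟩
      exact ⟨k, by omega⟩
    obtain ⟨os, es, h1, h2, h3⟩ := exact_form us h' (fun x hx => hbc x (by simp [hx]))
    have hu : isBC u = true := hbc u (by simp)
    refine ⟨os.map phi1 ++ phi1 u :: es.map phi1, ?_, ?_⟩
    · have : (os ++ u :: es).Perm (u :: us) := List.perm_middle.trans (h1.cons u)
      simpa using this.map phi1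
    · simp only [S, phi0, hu, if_true, E_append, E_cons]
      rw [h2, h3]
      simp [mul_assoc]

theorem T_E (n : ℕ) : ∀ us : List K4, us.length = n → T (E us) := by
  induction n using Nat.strong_induction_on with
  | _ n ih =>
    -- Step A: odd length and some letter is not in `{b, c}`
    have stepA : ∀ us : List K4, us.length = n → Odd n → (∃ u ∈ us, isBC u = false) →
        T (E us) := by
      intro us hlen hodd hex
      apply T_of_sq
      have hs := split_E_sq us (by rw [hlen]; exact hodd)
      have hc : cnt false us + cnt true us < n := by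
        rw [cnt_add, ← hlen]
        rw [List.countP_lt_length_iff]
        obtain ⟨u, hu, h⟩ := hex
        exact ⟨u, hu, by simp [h]⟩
      have hw : HasWord (cnt false us + cnt true us) (S false us * S true us) :=
        (hasWord_S us).1.mul (hasWord_S us).2
      have hT : T (S false us * S true us) := T_of_hasWord hw (ih _ hc)
      exact T_of_split hs (T_comm hT) hT
    -- Step B: odd length, some letter `c`
    have stepB : ∀ us : List K4, us.length = n → Odd n → (∀ u ∈ us, isBC u = true) →
        K4.c ∈ us → T (E us) := by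
      intro us hlen hodd hbc hc
      obtain ⟨ws, h1, h2⟩ := exact_form_sq us (by rw [hlen]; exact hodd) hbc
      have hT : T (E ws) := by
        apply stepA ws (by rw [h1.length_eq]; simpa using hlen) hodd
        refine ⟨K4.d, ?_, rfl⟩
        rw [h1.mem_iff, List.mem_map]
        exact ⟨_, hc, rfl⟩
      rw [← h2] at hT
      exact T_of_sq (T_of_split (split_E_sq us (by rw [hlen]; exact hodd)) (T_comm hT) hT)
    intro us hlen
    rcases Nat.even_or_odd n with heven | hodd
    · -- even case
      rcases Nat.eq_zero_or_pos n with rfl | hpos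
      · rw [List.length_eq_zero_iff] at hlen
        subst hlen
        exact T_one
      · have hs := split_E us (by rw [hlen]; exact heven)
        have hb := cnt_bound us
        rcases heven with ⟨k, hk⟩
        refine T_of_split hs (T_of_hasWord (hasWord_S us).2 (ih _ (by omega)))
          (T_of_hasWord (hasWord_S us).1 (ih _ (by omega)))
    · by_cases hbc : ∀ u ∈ us, isBC u = true
      · by_cases hc : K4.c ∈ us
        · exact stepB us hlen hodd hbc hc
        · obtain ⟨ws, h1, h2⟩ := exact_form_sq us (by rw [hlen]; exact hodd) hbc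
          have hallb : ∀ u ∈ us, u = K4.b := by
            intro u hu
            have := hbc u hu
            cases u
            · simp [isBC] at this
            · rfl
            · exact absurd hu hc
            · simp [isBC] at this
          have hlen' : ws.length = n := by rw [h1.length_eq]; simpa using hlen
          have hne : ws ≠ [] := by
            rintro rfl
            rcases hodd with ⟨k, hk⟩
            simp at hlen'
            omega
          have hallc : ∀ w ∈ ws, w = K4.c := by
            intro w hw
            rw [h1.mem_iff, List.mem_map] at hw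
            obtain ⟨u, hu, rfl⟩ := hw
            rw [hallb u hu]; rfl
          have hT : T (E ws) := by
            apply stepB ws hlen' hodd
            · intro w hw
              rw [hallc w hw]; rfl
            · obtain ⟨w, hw⟩ := List.exists_mem_of_ne_nil ws hne
              have := hallc w hw
              rwa [this] at hw
          rw [← h2] at hT
          exact T_of_sq (T_of_split (split_E_sq us (by rw [hlen]; exact hodd)) (T_comm hT) hT)
      · push Not at hbc
        obtain ⟨u, hu, h⟩ := hbc
        exact stepA us hlen hodd ⟨u, hu, by simpa using h⟩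

/-- **Grigorchuk's torsion theorem**: every element of the group has 2-power order. -/
theorem exists_pow_eq_one (g : Equiv.Perm (List Bool)) (hg : g ∈ grigorchukGroup) :
    ∃ n : ℕ, g ^ (2 ^ n) = 1 := by
  have key : ∃ m, HasWord m g := by
    induction hg using Subgroup.closure_induction with
    | mem x hx =>
      simp only [Set.mem_insert_iff, Set.mem_singleton_iff] at hx
      rcases hx with rfl | rfl | rfl | rfl
      · exact ⟨_, HasWord.a⟩
      · exact ⟨_, HasWord.ev .b⟩
      · exact ⟨_, HasWord.ev .c⟩
      · exact ⟨_, HasWord.ev .d⟩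
    | one => exact ⟨_, HasWord.one⟩
    | mul x y _ _ hx hy =>
      obtain ⟨m, hm⟩ := hx
      obtain ⟨n, hn⟩ := hy
      exact ⟨_, hm.mul hn⟩
    | inv x _ hx =>
      -- inverse: use that `x` has finite order
      obtain ⟨m, hm⟩ := hx
      obtain ⟨n, hn⟩ : T x := T_of_hasWord hm (T_E m)
      have hpow : ∀ k : ℕ, ∃ m, HasWord m (x ^ k) := by
        intro k
        induction k with
        | zero => exact ⟨_, by simpa using HasWord.one⟩
        | succ k ih =>
          obtain ⟨j, hj⟩ := ih
          exact ⟨_, by rw [pow_succ]; exact hj.mul hm⟩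
      have : x⁻¹ = x ^ (2 ^ n - 1) := by
        rw [inv_eq_iff_mul_eq_one, ← pow_succ']
        have : 2 ^ n - 1 + 1 = 2 ^ n := Nat.sub_add_cancel Nat.one_le_two_pow
        rw [this, hn]
      rw [this]
      exact hpow _
  obtain ⟨m, hm⟩ := key
  exact T_of_hasWord hm (T_E m)

end Pool.Agent.Lib.Helper71
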