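import Mathlib
import Pool.Agent.Lib.Helper71.Grig1

/-!
# A half-line in the boundary and a function on it killed by an element of augmentation one
-/

set_option autoImplicit false

namespace Pool.Agent.Lib.Helper71

/-! ### The orbit of `1^∞`, parametrised by natural numbers (Gray code) -/

/-- The length-`n` initial word of the `m`-th point of the half-line. -/
def pt : ℕ → ℕ → List Bool
  | 0, _ => []
  | n + 1, m => decide (m % 2 = (m / 2) % 2) :: pt n (m / 2)

/-- The type of the `j`-th double edge. -/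
def ty (j : ℕ) : ℕ := padicValNat 2 j % 3

theorem ty_odd (i : ℕ) : ty (2 * i + 1) = 0 := by
  unfold ty
  rw [padicValNat.eq_zero_of_not_dvd (by omega)]

theorem ty_even (i : ℕ) : ty (2 * (i + 1)) = (ty (i + 1) + 1) % 3 := by
  unfold ty
  have : Fact (Nat.Prime 2) := ⟨Nat.prime_two⟩
  rw [padicValNat.mul (by norm_num) (by omega), padicValNat_self]
  omega

theorem ty_lt (j : ℕ) : ty j < 3 := Nat.mod_lt _ (by norm_num)

/-- The other end of the double edge at `m`. -/
def partner (m : ℕ) : ℕ := 4 * ((m + 1) / 2) - 1 - m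

/-- The action of `a` on the half-line. -/
def aN (m : ℕ) : ℕ := if m % 2 = 0 then m + 1 else m - 1
/-- The action of `b` on the half-line. -/
def bN (m : ℕ) : ℕ := if m = 0 then 0 else if ty ((m + 1) / 2) = 2 then m else partner m
/-- The action of `c` on the half-line. -/
def cN (m : ℕ) : ℕ := if m = 0 then 0 else if ty ((m + 1) / 2) = 1 then m else partner m
/-- The action of `d` on the half-line. -/
def dN (m : ℕ) : ℕ := if m = 0 then 0 else if ty ((m + 1) / 2) = 0 then m else partner m

theorem pt_aN (n m : ℕ) : pt n (aN m) = a (pt n m) := by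
  cases n with
  | zero => simp [pt]
  | succ n =>
    have h1 : aN m / 2 = m / 2 := by unfold aN; split_ifs <;> omega
    have h2 : aN m % 2 = 1 - m % 2 := by unfold aN; split_ifs <;> omega
    simp only [pt, h1, h2, a_cons, List.cons.injEq, and_true]
    rcases Nat.mod_two_eq_zero_or_one m with h | h <;>
      rcases Nat.mod_two_eq_zero_or_one (m / 2) with h' | h' <;> simp [h, h']

/-- Case distinction on `m` modulo 4. -/
theorem four_cases (m : ℕ) : m = 0 ∨ ∃ i, m = 4 * i + 1 ∨ m = 4 * i + 2 ∨ m = 4 * i + 3 ∨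
    m = 4 * i + 4 := by
  rcases Nat.eq_zero_or_pos m with h | h
  · exact Or.inl h
  · right
    exact ⟨(m - 1) / 4, by omega⟩

theorem pt_zero_succ (n : ℕ) : pt (n + 1) 0 = true :: pt n 0 := by simp [pt]

theorem pt_41 (n i : ℕ) : pt (n + 1) (4 * i + 1) = false :: pt n (2 * i) := by
  have h1 : (4 * i + 1) / 2 = 2 * i := by omega
  have h2 : ¬ ((4 * i + 1) % 2 = (2 * i) % 2) := by omega
  simp only [pt, h1, h2, decide_false]

theorem pt_42 (n i : ℕ) : pt (n + 1) (4 * i + 2) = false :: pt n (2 * i + 1) := by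
  have h1 : (4 * i + 2) / 2 = 2 * i + 1 := by omega
  have h2 : ¬ ((4 * i + 2) % 2 = (2 * i + 1) % 2) := by omega
  simp only [pt, h1, h2, decide_false]

theorem pt_43 (n i : ℕ) : pt (n + 1) (4 * i + 3) = true :: pt n (2 * i + 1) := by
  have h1 : (4 * i + 3) / 2 = 2 * i + 1 := by omega
  have h2 : ((4 * i + 3) % 2 = (2 * i + 1) % 2) := by omega
  simp only [pt, h1, h2, decide_true]

theorem pt_44 (n i : ℕ) : pt (n + 1) (4 * i + 4) = true :: pt n (2 * i + 2) := by
  have h1 : (4 * i + 4) / 2 = 2 * i + 2 := by omega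
  have h2 : ((4 * i + 4) % 2 = (2 * i + 2) % 2) := by omega
  simp only [pt, h1, h2, decide_true]

theorem partner_41 (i : ℕ) : partner (4 * i + 1) = 4 * i + 2 := by unfold partner; omega
theorem partner_42 (i : ℕ) : partner (4 * i + 2) = 4 * i + 1 := by unfold partner; omega
theorem partner_43 (i : ℕ) : partner (4 * i + 3) = 4 * i + 4 := by unfold partner; omega
theorem partner_44 (i : ℕ) : partner (4 * i + 4) = 4 * i + 3 := by unfold partner; omega
theorem partner_21 (i : ℕ) : partner (2 * i + 1) = 2 * i + 2 := by unfold partner; omega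
theorem partner_22 (i : ℕ) : partner (2 * i + 2) = 2 * i + 1 := by unfold partner; omega

theorem aN_2 (i : ℕ) : aN (2 * i) = 2 * i + 1 := by unfold aN; rw [if_pos (by omega)]
theorem aN_21 (i : ℕ) : aN (2 * i + 1) = 2 * i := by unfold aN; rw [if_neg (by omega)]; omega

/-- A uniform description of `bN`, `cN`, `dN`: `gN s` moves a point unless the type is `s`. -/
def gN (s m : ℕ) : ℕ := if m = 0 then 0 else if ty ((m + 1) / 2) = s then m else partner m

theorem bN_eq (m : ℕ) : bN m = gN 2 m := rfl
theorem cN_eq (m : ℕ) : cN m = gN 1 m := rfl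
theorem dN_eq (m : ℕ) : dN m = gN 0 m := rfl

theorem gN_zero (s : ℕ) : gN s 0 = 0 := rfl

theorem gN_41 (s i : ℕ) : gN s (4 * i + 1) = if s = 0 then 4 * i + 1 else 4 * i + 2 := by
  unfold gN
  have h : (4 * i + 1 + 1) / 2 = 2 * i + 1 := by omega
  rw [if_neg (by omega), h, ty_odd, partner_41]
  by_cases hs : s = 0 <;> simp [hs, eq_comm]

theorem gN_42 (s i : ℕ) : gN s (4 * i + 2) = if s = 0 then 4 * i + 2 else 4 * i + 1 := by
  unfold gN
  have h : (4 * i + 2 + 1) / 2 = 2 * i + 1 := by omega
  rw [if_neg (by omega), h, ty_odd, partner_42]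
  by_cases hs : s = 0 <;> simp [hs, eq_comm]

theorem gN_43 (s i : ℕ) : gN s (4 * i + 3) = if (ty (i + 1) + 1) % 3 = s then 4 * i + 3
    else 4 * i + 4 := by
  unfold gN
  have h : (4 * i + 3 + 1) / 2 = 2 * (i + 1) := by omega
  rw [if_neg (by omega), h, ty_even, partner_43]

theorem gN_44 (s i : ℕ) : gN s (4 * i + 4) = if (ty (i + 1) + 1) % 3 = s then 4 * i + 4
    else 4 * i + 3 := by
  unfold gN
  have h : (4 * i + 4 + 1) / 2 = 2 * (i + 1) := by omega
  rw [if_neg (by omega), h, ty_even, partner_44]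

theorem gN_21 (s i : ℕ) : gN s (2 * i + 1) = if ty (i + 1) = s then 2 * i + 1
    else 2 * i + 2 := by
  unfold gN
  have h : (2 * i + 1 + 1) / 2 = i + 1 := by omega
  rw [if_neg (by omega), h, partner_21]

theorem gN_22 (s i : ℕ) : gN s (2 * i + 2) = if ty (i + 1) = s then 2 * i + 2
    else 2 * i + 1 := by
  unfold gN
  have h : (2 * i + 2 + 1) / 2 = i + 1 := by omega
  rw [if_neg (by omega), h, partner_22]

theorem pt_bcd (n : ℕ) : ∀ m : ℕ, pt n (bN m) = b (pt n m) ∧ pt n (cN m) = c (pt n m) ∧
    pt n (dN m) = d (pt n m) := by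
  induction n with
  | zero => intro m; simp [pt]
  | succ n ih =>
    intro m
    rw [bN_eq, cN_eq, dN_eq]
    rcases four_cases m with rfl | ⟨i, rfl | rfl | rfl | rfl⟩
    · obtain ⟨h1, h2, h3⟩ := ih 0
      rw [bN_eq] at h1; rw [cN_eq] at h2; rw [dN_eq] at h3
      simp only [gN_zero] at h1 h2 h3 ⊢
      rw [pt_zero_succ, b_true, c_true, d_true, ← h1, ← h2, ← h3]
      exact ⟨rfl, rfl, rfl⟩
    · rw [gN_41, gN_41, gN_41]
      have h := pt_aN n (2 * i)
      rw [aN_2] at h
      simp [pt_41, pt_42, ← h]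
    · rw [gN_42, gN_42, gN_42]
      have h := pt_aN n (2 * i + 1)
      rw [aN_21] at h
      simp [pt_41, pt_42, ← h]
    · obtain ⟨h1, h2, h3⟩ := ih (2 * i + 1)
      rw [bN_eq] at h1; rw [cN_eq] at h2; rw [dN_eq] at h3
      rw [gN_43, gN_43, gN_43]
      rw [gN_21] at h1 h2 h3
      have hlt := ty_lt (i + 1)
      rw [pt_43, b_true, c_true, d_true, ← h1, ← h2, ← h3]
      generalize ty (i + 1) = t at *
      interval_cases t <;> simp [pt_43, pt_44]
    · obtain ⟨h1, h2, h3⟩ := ih (2 * i + 2)
      rw [bN_eq] at h1; rw [cN_eq] at h2; rw [dN_eq] at h3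
      rw [gN_44, gN_44, gN_44]
      rw [gN_22] at h1 h2 h3
      have hlt := ty_lt (i + 1)
      rw [pt_44, b_true, c_true, d_true, ← h1, ← h2, ← h3]
      generalize ty (i + 1) = t at *
      interval_cases t <;> simp [pt_43, pt_44]

/-- Sequences of words; a tree automorphism acts termwise. -/
abbrev Om : Type := ℕ → List Bool

/-- The termwise action. -/
def act (g : Equiv.Perm (List Bool)) (η : Om) : Om := fun n => g (η n)

theorem act_one (η : Om) : act 1 η = η := rfl
theorem act_mul (g h : Equiv.Perm (List Bool)) (η : Om) : act (g * h) η = act g (act h η) := rfl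

/-- The `m`-th point of the half-line as a sequence of words. -/
def xi (m : ℕ) : Om := fun n => pt n m

theorem act_a_xi (m : ℕ) : act a (xi m) = xi (aN m) := by
  funext n; exact (pt_aN n m).symm
theorem act_b_xi (m : ℕ) : act b (xi m) = xi (bN m) := by
  funext n; exact (pt_bcd n m).1.symm
theorem act_c_xi (m : ℕ) : act c (xi m) = xi (cN m) := by
  funext n; exact (pt_bcd n m).2.1.symm
theorem act_d_xi (m : ℕ) : act d (xi m) = xi (dN m) := by
  funext n; exact (pt_bcd n m).2.2.symm

theorem pt_inj (n : ℕ) : ∀ m m' : ℕ, m < 2 ^ n → m' < 2 ^ n → pt n m = pt n m' → m = m' := by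
  induction n with
  | zero => intro m m' h h' _; simp at h h'; omega
  | succ n ih =>
    intro m m' h h' he
    simp only [pt, List.cons.injEq, decide_eq_decide] at he
    obtain ⟨h1, h2⟩ := he
    have h3 := ih (m / 2) (m' / 2) (by rw [pow_succ] at h; omega) (by rw [pow_succ] at h'; omega) h2
    rw [h3] at h1
    have := Nat.mod_two_eq_zero_or_one m
    have := Nat.mod_two_eq_zero_or_one m'
    have := Nat.mod_two_eq_zero_or_one (m' / 2)
    omega

theorem xi_injective : Function.Injective xi := by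
  intro m m' h
  have h1 : m < 2 ^ (m + m') := lt_of_le_of_lt (Nat.le_add_right m m') Nat.lt_two_pow_self
  have h2 : m' < 2 ^ (m + m') := lt_of_le_of_lt (Nat.le_add_left m' m) Nat.lt_two_pow_self
  exact pt_inj (m + m') m m' h1 h2 (congrFun h (m + m'))

/-! ### The function -/

/-- The field with four elements, as pairs over the field with two elements. -/
abbrev F4 : Type := ZMod 2 × ZMod 2

/-- Multiplication by `ω`. -/
def w (x : F4) : F4 := (x.2, x.1 + x.2)

/-- Multiplication by `ω² = ω⁻¹`. -/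
def w2 (x : F4) : F4 := (x.1 + x.2, x.1)

/-- The transfer map. -/
def step (t : ℕ) (s : F4 × F4) : F4 × F4 :=
  if t = 0 then (s.1 + w s.2, s.2 + w (s.1 + w s.2))
  else if t = 1 then (w2 (s.1 + s.2), w2 (s.1 + s.2) + w s.2)
  else (w s.1, w2 s.2)

/-- The values at `2j` and `2j+1`. -/
def st : ℕ → F4 × F4
  | 0 => ((1, 0), (1, 1))
  | j + 1 => step (ty (j + 1)) (st j)

/-- The function on the half-line with `f(a m) = f(c m) + ω f(d m)`. -/
def fN (m : ℕ) : F4 := if m % 2 = 0 then (st (m / 2)).1 else (st (m / 2)).2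

theorem fN_even (j : ℕ) : fN (2 * j) = (st j).1 := by
  unfold fN; rw [if_pos (by omega)]; congr 2; omega
theorem fN_odd (j : ℕ) : fN (2 * j + 1) = (st j).2 := by
  unfold fN; rw [if_neg (by omega)]; congr 2; omega

theorem step_rel (t : ℕ) (ht : t < 3) : ∀ s : F4 × F4,
    (s.1 = (if t = 1 then s.2 else (step t s).1) + w (if t = 0 then s.2 else (step t s).1)) ∧
    ((step t s).2 = (if t = 1 then (step t s).1 else s.2) +
      w (if t = 0 then (step t s).1 else s.2)) := by
  interval_cases t <;> decide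

theorem fN_rel (m : ℕ) : fN (aN m) = fN (cN m) + w (fN (dN m)) := by
  rw [cN_eq, dN_eq]
  rcases Nat.eq_zero_or_pos m with rfl | hpos
  · rw [gN_zero, gN_zero]
    decide
  · have key : ∃ i, m = 2 * i + 1 ∨ m = 2 * i + 2 := ⟨(m - 1) / 2, by omega⟩
    obtain ⟨i, rfl | rfl⟩ := key
    · rw [gN_21, gN_21, aN_21]
      have h := (step_rel (ty (i + 1)) (ty_lt _) (st i)).1
      have e1 : fN (2 * i) = (st i).1 := fN_even i
      have e2 : fN (2 * i + 1) = (st i).2 := fN_odd i
      have e3 : fN (2 * i + 2) = (step (ty (i + 1)) (st i)).1 := fN_even (i + 1)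
      rw [apply_ite fN, apply_ite fN, e1, e2, e3]
      exact h
    · rw [gN_22, gN_22]
      have h := (step_rel (ty (i + 1)) (ty_lt _) (st i)).2
      have e2 : fN (2 * i + 1) = (st i).2 := fN_odd i
      have e3 : fN (2 * i + 2) = (step (ty (i + 1)) (st i)).1 := fN_even (i + 1)
      have e4 : fN (aN (2 * i + 2)) = (step (ty (i + 1)) (st i)).2 := by
        have : aN (2 * i + 2) = 2 * (i + 1) + 1 := aN_2 (i + 1)
        rw [this]; exact fN_odd (i + 1)
      rw [apply_ite fN, apply_ite fN, e2, e3, e4]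
      exact h

/-- Extension by zero to all sequences of words. -/
noncomputable def fO : Om → F4 := Function.extend xi fN 0

theorem fO_xi (m : ℕ) : fO (xi m) = fN m := xi_injective.extend_apply _ _ _

theorem a_inv : a⁻¹ = a := by rw [inv_eq_iff_mul_eq_one]; exact a_mul_a
theorem b_inv : b⁻¹ = b := by rw [inv_eq_iff_mul_eq_one]; exact ev_sq .b
theorem c_inv : c⁻¹ = c := by rw [inv_eq_iff_mul_eq_one]; exact ev_sq .c
theorem d_inv : d⁻¹ = d := by rw [inv_eq_iff_mul_eq_one]; exact ev_sq .d

theorem fO_rel (η : Om) : fO (act a η) = fO (act c η) + w (fO (act d η)) := by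
  by_cases h : ∃ m, xi m = η
  · obtain ⟨m, rfl⟩ := h
    rw [act_a_xi, act_c_xi, act_d_xi, fO_xi, fO_xi, fO_xi, fN_rel]
  · have ha : ¬ ∃ m, xi m = act a η := by
      rintro ⟨m, hm⟩
      apply h
      refine ⟨aN m, ?_⟩
      rw [← act_a_xi, hm, ← act_mul, a_mul_a, act_one]
    have hc : ¬ ∃ m, xi m = act c η := by
      rintro ⟨m, hm⟩
      apply h
      refine ⟨cN m, ?_⟩
      have hcc : c * c = 1 := ev_sq .c
      rw [← act_c_xi, hm, ← act_mul, hcc, act_one]
    have hd : ¬ ∃ m, xi m = act d η := by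
      rintro ⟨m, hm⟩
      apply h
      refine ⟨dN m, ?_⟩
      have hdd : d * d = 1 := ev_sq .d
      rw [← act_d_xi, hm, ← act_mul, hdd, act_one]
    unfold fO
    rw [Function.extend_apply' _ _ _ ha, Function.extend_apply' _ _ _ hc,
      Function.extend_apply' _ _ _ hd]
    rfl

/-- The key identity: the first component is killed by `a + c + ab + ba + ada`. -/
theorem key_identity (η : Om) :
    (fO (act a η)).1 + (fO (act c η)).1 + (fO (act (a * b) η)).1 + (fO (act (b * a) η)).1 +
      (fO (act (a * d * a) η)).1 = 0 := by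
  have hbc : d * c = b := (ev_mul .d .c).symm
  have hcd : c * d = b := (ev_mul .c .d).symm
  have hcb : c * b = d := (ev_mul .c .b).symm
  have hdb : d * b = c := (ev_mul .d .b).symm
  have hdd : d * d = 1 := ev_sq .d
  -- two components of the relation
  have r1 : ∀ η, (fO (act a η)).1 = (fO (act c η)).1 + (fO (act d η)).2 := fun η => by
    have := congrArg Prod.fst (fO_rel η); simpa [w] using this
  have r2 : ∀ η, (fO (act a η)).2 = (fO (act c η)).2 + ((fO (act d η)).1 + (fO (act d η)).2) :=
    fun η => by have := congrArg Prod.snd (fO_rel η); simpa [w] using this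
  -- `f₁(η) = f₀(a d η) + f₀(b η)`
  have s : ∀ η, (fO η).2 = (fO (act (a * d) η)).1 + (fO (act b η)).1 := fun η => by
    have h := r1 (act d η)
    rw [← act_mul, ← act_mul, ← act_mul, hcd, hdd, act_one] at h
    rw [h]
    have : ∀ x y : ZMod 2, y = x + y + x := by decide
    exact this _ _
  have h := r2 η
  rw [s (act a η), s (act c η), s (act d η)] at h
  simp only [← act_mul] at h
  have e1 : a * d * c = a * b := by rw [mul_assoc, hbc]
  have e2 : b * c = d := (ev_mul .b .c).symm
  have e3 : a * d * d = a := by rw [mul_assoc, hdd, mul_one]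
  have e4 : b * d = c := (ev_mul .b .d).symm
  rw [e1, e2, e3, e4] at h
  revert h
  generalize (fO (act (a * d * a) η)).1 = x1
  generalize (fO (act (b * a) η)).1 = x2
  generalize (fO (act (a * b) η)).1 = x3
  generalize (fO (act d η)).1 = x4
  generalize (fO (act a η)).1 = x5
  generalize (fO (act c η)).1 = x6
  revert x1 x2 x3 x4 x5 x6
  decide

theorem fO_xi_zero : (fO (xi 0)).1 = 1 := by
  rw [fO_xi]; rfl

end Pool.Agent.Lib.Helper71
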