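import Mathlib

/-!
# Harmonious listings in groups with the semidihedral relations
-/

set_option autoImplicit false

namespace Pool.Agent.Lib.Helper71.SD

/-! ### Cyclic products of a list -/

section Cyc

variable {G : Type*} [Group G]

/-- The cyclically consecutive products `g₁g₂, g₂g₃, …, gₘg₁` of a list. -/
def cyc (l : List G) : List G := List.zipWith (· * ·) l (l.rotate 1)

theorem length_cyc (l : List G) : (cyc l).length = l.length := by
  simp [cyc]

theorem mem_cyc_of_infix {l : List G} {x y : G} (h : [x, y] <:+: l) : x * y ∈ cyc l := by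
  obtain ⟨u, v, rfl⟩ := h
  unfold cyc
  rcases u with _ | ⟨u0, u⟩
  · simp only [List.nil_append, List.cons_append, List.rotate_cons_succ, List.rotate_zero]
    simp
  · have e1 : (u0 :: u ++ [x, y] ++ v).rotate 1 = u ++ [x, y] ++ v ++ [u0] := by
      simp [List.rotate_cons_succ]
    rw [e1]
    -- write the first list as (u0 :: u) ++ x :: (y :: v), the second as (u ++ [x]) ++ y :: ...
    have e2 : u0 :: u ++ [x, y] ++ v = (u0 :: u) ++ (x :: (y :: v)) := by simp
    have e3 : u ++ [x, y] ++ v ++ [u0] = (u ++ [x]) ++ (y :: (v ++ [u0])) := by simp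
    rw [e2, e3, List.zipWith_append (by simp)]
    simp

theorem mem_cyc_last {x y : G} {l : List G} (h1 : l.head? = some x) (h2 : l.getLast? = some y) :
    y * x ∈ cyc l := by
  rcases l with _ | ⟨z, l⟩
  · simp at h1
  · simp only [List.head?_cons, Option.some.injEq] at h1
    subst h1
    rcases List.eq_nil_or_concat l with rfl | ⟨l', w, rfl⟩
    · simp at h2
      subst h2
      simp [cyc]
    · have hw : w = y := by
        simpa [List.getLast?_cons, List.getLast?_append] using h2
      subst hw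
      unfold cyc
      have e1 : (z :: (l' ++ [w])).rotate 1 = (l' ++ [w]) ++ [z] := by
        simp [List.rotate_cons_succ]
      have e2 : z :: (l' ++ [w]) = (z :: l') ++ [w] := by simp
      simp only [List.concat_eq_append] at *
      rw [e1, e2, List.zipWith_append (by simp)]
      simp

end Cyc

/-! ### The relations -/

section Rel

variable {G : Type*} [Group G] {a b : G} {h : ℕ}

/-- Elements `aᶻ`. -/
def X (a : G) (z : ℤ) : G := a ^ z

/-- Elements `aᶻ b`. -/
def Y (a b : G) (z : ℤ) : G := a ^ z * b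

/-- The semidihedral relations. -/
structure Rel (a b : G) (h : ℕ) : Prop where
  two_le : 2 ≤ h
  even : Even h
  ha : a ^ (2 * h) = 1
  hb : b ^ 2 = 1
  hab : b * a * b⁻¹ = a ^ (h - 1)

theorem X_congr (R : Rel a b h) {z z' : ℤ} (t : ℤ) (ht : z = z' + 2 * h * t) : X a z = X a z' := by
  unfold X
  rw [ht, zpow_add, zpow_mul]
  have : a ^ (2 * (h : ℤ)) = 1 := by
    have := R.ha
    rw [← zpow_natCast] at this
    simpa using this
  rw [this, one_zpow, mul_one]

theorem Y_congr (R : Rel a b h) {z z' : ℤ} (t : ℤ) (ht : z = z' + 2 * h * t) :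
    Y a b z = Y a b z' := by
  have := X_congr R t ht
  unfold X at this
  unfold Y
  rw [this]

theorem XX (i j : ℤ) : X a i * X a j = X a (i + j) := by
  unfold X; rw [zpow_add]

theorem XY (i j : ℤ) : X a i * Y a b j = Y a b (i + j) := by
  unfold X Y; rw [zpow_add, mul_assoc]

theorem b_conj (R : Rel a b h) (j : ℤ) : b * a ^ j = a ^ ((h : ℤ) * j - j) * b := by
  have h1 : b * a ^ j * b⁻¹ = a ^ ((h : ℤ) * j - j) := by
    rw [← conj_zpow, R.hab, ← zpow_natCast, ← zpow_mul]
    congr 1
    have := R.two_le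
    rw [Nat.cast_sub (by omega)]
    push_cast
    ring
  rw [← h1]; group

theorem b_conj_even (R : Rel a b h) {j : ℤ} (hj : Even j) : b * a ^ j = a ^ (-j) * b := by
  rw [b_conj R]
  obtain ⟨l, rfl⟩ := hj
  have := X_congr R (z := (h : ℤ) * (l + l) - (l + l)) (z' := -(l + l)) l (by ring)
  unfold X at this
  rw [this]

theorem b_conj_odd (R : Rel a b h) {j : ℤ} (hj : Odd j) : b * a ^ j = a ^ (h - j) * b := by
  rw [b_conj R]
  obtain ⟨l, rfl⟩ := hj
  have := X_congr R (z := (h : ℤ) * (2 * l + 1) - (2 * l + 1)) (z' := h - (2 * l + 1)) l (by ring)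
  unfold X at this
  rw [this]

theorem YX_even (R : Rel a b h) (i : ℤ) {j : ℤ} (hj : Even j) :
    Y a b i * X a j = Y a b (i - j) := by
  unfold X Y
  rw [mul_assoc, b_conj_even R hj, ← mul_assoc, ← zpow_add, sub_eq_add_neg]

theorem YX_odd (R : Rel a b h) (i : ℤ) {j : ℤ} (hj : Odd j) :
    Y a b i * X a j = Y a b (i - j + h) := by
  unfold X Y
  rw [mul_assoc, b_conj_odd R hj, ← mul_assoc, ← zpow_add]
  congr 2; ring

theorem YY_even (R : Rel a b h) (i : ℤ) {j : ℤ} (hj : Even j) :
    Y a b i * Y a b j = X a (i - j) := by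
  have h2 : Y a b i * Y a b j = Y a b i * X a j * b := by unfold X Y; group
  rw [h2, YX_even R i hj]
  have := R.hb
  unfold X Y
  rw [mul_assoc, ← pow_two, this, mul_one]

theorem YY_odd (R : Rel a b h) (i : ℤ) {j : ℤ} (hj : Odd j) :
    Y a b i * Y a b j = X a (i - j + h) := by
  have h2 : Y a b i * Y a b j = Y a b i * X a j * b := by unfold X Y; group
  rw [h2, YX_odd R i hj]
  have := R.hb
  unfold X Y
  rw [mul_assoc, ← pow_two, this, mul_one]

/-- Every element of a group generated by `a`, `b` is some `X κ` or `Y κ` with `0 ≤ κ < 2h`. -/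
theorem exists_rep (R : Rel a b h) (hgen : Subgroup.closure {a, b} = ⊤) (g : G) :
    ∃ κ : ℕ, κ < 2 * h ∧ (g = X a κ ∨ g = Y a b κ) := by
  have key : ∃ z : ℤ, g = X a z ∨ g = Y a b z := by
    have hg : g ∈ Subgroup.closure {a, b} := by rw [hgen]; trivial
    induction hg using Subgroup.closure_induction with
    | mem x hx =>
      rcases hx with rfl | rfl
      · exact ⟨1, Or.inl (by simp [X])⟩
      · exact ⟨0, Or.inr (by simp [Y])⟩
    | one => exact ⟨0, Or.inl (by simp [X])⟩
    | mul x y _ _ hx hy =>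
      obtain ⟨i, hi⟩ := hx
      obtain ⟨j, hj⟩ := hy
      rcases hi with rfl | rfl <;> rcases hj with rfl | rfl
      · exact ⟨_, Or.inl (XX i j)⟩
      · exact ⟨_, Or.inr (XY i j)⟩
      · rcases Int.even_or_odd j with hj | hj
        · exact ⟨_, Or.inr (YX_even R i hj)⟩
        · exact ⟨_, Or.inr (YX_odd R i hj)⟩
      · rcases Int.even_or_odd j with hj | hj
        · exact ⟨_, Or.inl (YY_even R i hj)⟩
        · exact ⟨_, Or.inl (YY_odd R i hj)⟩
    | inv x _ hx =>
      obtain ⟨i, hi⟩ := hx
      rcases hi with rfl | rfl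
      · exact ⟨-i, Or.inl (by simp [X])⟩
      · have hb' : b⁻¹ = b := by
          have := R.hb
          rw [pow_two] at this
          exact inv_eq_of_mul_eq_one_left this
        have h3 : (Y a b i)⁻¹ = b * a ^ (-i) := by
          unfold Y; rw [mul_inv_rev, hb', zpow_neg]
        rcases Int.even_or_odd (-i) with hj | hj
        · exact ⟨_, Or.inr (by rw [h3, b_conj_even R hj]; rfl)⟩
        · exact ⟨_, Or.inr (by rw [h3, b_conj_odd R hj]; rfl)⟩
  obtain ⟨z, hz⟩ := key
  have hpos : (0 : ℤ) < 2 * h := by have := R.two_le; omega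
  have hmod0 : 0 ≤ z % (2 * h) := Int.emod_nonneg _ (by omega)
  have hmod1 : z % (2 * h) < 2 * h := Int.emod_lt_of_pos _ hpos
  refine ⟨(z % (2 * h)).toNat, by omega, ?_⟩
  have e : (((z % (2 * h)).toNat : ℕ) : ℤ) = z % (2 * h) := Int.toNat_of_nonneg hmod0
  have e2 : z = z % (2 * h) + 2 * h * (z / (2 * h)) := (Int.emod_add_mul_ediv _ _).symm
  rw [e]
  rcases hz with rfl | rfl
  · exact Or.inl (X_congr R _ e2)
  · exact Or.inr (Y_congr R _ e2)

end Rel

end Pool.Agent.Lib.Helper71.SD
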