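import Mathlib
import Pool.Agent.Lib.Helper71.SemiDihedral

/-!
# The explicit harmonious listing for `h ≡ 0 mod 4`, `h ≥ 8`
-/

set_option autoImplicit false

namespace Pool.Agent.Lib.Helper71.SD

variable {G : Type*} [Group G]

set_option linter.unusedSectionVars false

/-- First linear block. -/
def fA (a b : G) (h : ℕ) (s : ℕ) : List G :=
  [X a (h - 4 - 2 * s), Y a b (3 - 2 * s), Y a b (9 + 2 * s), X a (h + 3 - 2 * s)]

/-- Second linear block. -/
def fB (a b : G) (h : ℕ) (s : ℕ) : List G :=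
  [X a (-2 - 2 * s), X a (1 - 2 * s), Y a b (h - 2 * s), Y a b (h + 8 + 2 * s)]

/-- First connecting segment. -/
def J1 (a b : G) (h : ℕ) : List G :=
  [X a 2, X a 3, Y a b (h + 6), Y a b (h + 2), Y a b 4, X a h, Y a b 7, Y a b (h + 7), X a 5]

/-- Second connecting segment. -/
def J2 (a b : G) (h : ℕ) : List G :=
  [X a (h + 4), X a (h + 7), Y a b 6, X a (h - 2), Y a b 5, Y a b (h + 9), Y a b (h + 3), X a 9,
    X a 0, Y a b (h + 5), X a 7, Y a b (h + 4), Y a b 2, X a (h + 2), X a (h + 5)]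

/-- The listing. -/
def L (a b : G) (h T : ℕ) : List G :=
  (List.range T).flatMap (fA a b h) ++ (J1 a b h ++ ((List.range T).flatMap (fB a b h) ++
    J2 a b h))

theorem length_L (a b : G) (h T : ℕ) : (L a b h T).length = 8 * T + 24 := by
  have h1 : ∀ f : ℕ → List G, (∀ s, (f s).length = 4) →
      ((List.range T).flatMap f).length = 4 * T := by
    intro f hf
    rw [List.length_flatMap]
    simp [hf, mul_comm]
  unfold L
  simp only [List.length_append]
  rw [h1 (fA a b h) (fun s => rfl), h1 (fB a b h) (fun s => rfl)]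
  simp only [J1, J2, List.length_cons, List.length_nil]
  ring

theorem flatMap_succ (f : ℕ → List G) (T : ℕ) :
    (List.range (T + 1)).flatMap f = (List.range T).flatMap f ++ f T := by
  rw [List.range_succ, List.flatMap_append]
  simp

theorem block_infix (f : ℕ → List G) {T s : ℕ} (hs : s < T) :
    f s <:+: (List.range T).flatMap f := by
  induction T with
  | zero => omega
  | succ T ih =>
    rw [flatMap_succ]
    rcases Nat.lt_succ_iff_lt_or_eq.1 hs with h | rfl
    · exact (ih h).trans (List.prefix_append _ _).isInfix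
    · exact (List.suffix_append _ _).isInfix

theorem block2_infix (f : ℕ → List G) {T s : ℕ} (hs : s + 1 < T) :
    f s ++ f (s + 1) <:+: (List.range T).flatMap f := by
  induction T with
  | zero => omega
  | succ T ih =>
    rcases Nat.lt_succ_iff_lt_or_eq.1 hs with h | rfl
    · rw [flatMap_succ]
      exact (ih h).trans (List.prefix_append _ _).isInfix
    · rw [flatMap_succ, flatMap_succ, List.append_assoc]
      exact (List.suffix_append _ _).isInfix

theorem flatMap_first (f : ℕ → List G) {T : ℕ} (hT : 1 ≤ T) :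
    ∃ r, (List.range T).flatMap f = f 0 ++ r := by
  induction T with
  | zero => omega
  | succ T ih =>
    rcases Nat.eq_zero_or_pos T with rfl | hpos
    · exact ⟨[], by simp⟩
    · obtain ⟨r, hr⟩ := ih hpos
      exact ⟨r ++ f T, by rw [flatMap_succ, hr, List.append_assoc]⟩

theorem flatMap_last (f : ℕ → List G) {T : ℕ} (hT : 1 ≤ T) :
    ∃ r, (List.range T).flatMap f = r ++ f (T - 1) := by
  obtain ⟨T, rfl⟩ : ∃ T', T = T' + 1 := ⟨T - 1, by omega⟩
  exact ⟨_, flatMap_succ f T⟩

section Cover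

variable {a b : G} {h T : ℕ}

theorem A_infix {s : ℕ} (hs : s < T) : fA a b h s <:+: L a b h T :=
  (block_infix _ hs).trans (List.prefix_append _ _).isInfix

theorem AA_infix {s : ℕ} (hs : s + 1 < T) :
    fA a b h s ++ fA a b h (s + 1) <:+: L a b h T :=
  (block2_infix _ hs).trans (List.prefix_append _ _).isInfix

theorem B_infix {s : ℕ} (hs : s < T) : fB a b h s <:+: L a b h T := by
  refine (block_infix _ hs).trans ?_
  refine (List.prefix_append _ (J2 a b h)).isInfix.trans ?_
  refine (List.suffix_append (J1 a b h) _).isInfix.trans ?_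
  exact (List.suffix_append _ _).isInfix

theorem BB_infix {s : ℕ} (hs : s + 1 < T) :
    fB a b h s ++ fB a b h (s + 1) <:+: L a b h T := by
  refine (block2_infix _ hs).trans ?_
  refine (List.prefix_append _ (J2 a b h)).isInfix.trans ?_
  refine (List.suffix_append (J1 a b h) _).isInfix.trans ?_
  exact (List.suffix_append _ _).isInfix

/-- The end of the first phase, the first connecting segment, and the start of the second phase. -/
theorem J1_infix (hT : 1 ≤ T) :
    fA a b h (T - 1) ++ (J1 a b h ++ fB a b h 0) <:+: L a b h T := by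
  obtain ⟨r, hr⟩ := flatMap_last (fA a b h) hT
  obtain ⟨r', hr'⟩ := flatMap_first (fB a b h) hT
  refine ⟨r, r' ++ J2 a b h, ?_⟩
  unfold L
  rw [hr, hr']
  simp only [List.append_assoc]

/-- The end of the second phase and the second connecting segment. -/
theorem J2_infix (hT : 1 ≤ T) : fB a b h (T - 1) ++ J2 a b h <:+: L a b h T := by
  obtain ⟨r, hr⟩ := flatMap_last (fB a b h) hT
  refine ⟨(List.range T).flatMap (fA a b h) ++ (J1 a b h ++ r), [], ?_⟩
  unfold L
  rw [hr]
  simp only [List.append_assoc, List.append_nil]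

theorem J1_infix' : J1 a b h <:+: L a b h T := by
  refine ⟨(List.range T).flatMap (fA a b h), (List.range T).flatMap (fB a b h) ++ J2 a b h, ?_⟩
  unfold L
  simp only [List.append_assoc]

theorem J2_infix' : J2 a b h <:+: L a b h T := by
  refine ⟨(List.range T).flatMap (fA a b h) ++ (J1 a b h ++ (List.range T).flatMap (fB a b h)),
    [], ?_⟩
  unfold L
  simp only [List.append_assoc, List.append_nil]

theorem head_L (hT : 1 ≤ T) : (L a b h T).head? = some (X a (h - 4)) := by
  obtain ⟨r, hr⟩ := flatMap_first (fA a b h) hT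
  unfold L
  rw [hr]
  simp [fA]

theorem last_L : (L a b h T).getLast? = some (X a (h + 5)) := by
  unfold L J2
  simp [List.getLast?_append, List.getLast?_cons]

/-- Membership from an infix. -/
theorem mem_of_infix {l l' : List G} (hi : l <:+: l') {x : G} (hx : x ∈ l) : x ∈ l' :=
  hi.subset hx

/-- All `X κ` are listed. -/
theorem X_mem (R : Rel a b h) (hT : h = 2 * T + 6) (h4 : h % 4 = 0) (κ : ℕ) (hκ : κ < 2 * h) :
    X a κ ∈ L a b h T := by
  have J1m : ∀ x ∈ J1 a b h, x ∈ L a b h T := fun x hx => mem_of_infix J1_infix' hx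
  have J2m : ∀ x ∈ J2 a b h, x ∈ L a b h T := fun x hx => mem_of_infix J2_infix' hx
  rcases Nat.even_or_odd' κ with ⟨c, rfl | rfl⟩
  · -- even
    by_cases h1 : 2 * c ≤ h - 4
    · by_cases h2 : 4 ≤ 2 * c
      · -- block A, first entry
        have hm : X a (h - 4 - 2 * ((h / 2 - 2 - c : ℕ) : ℤ)) ∈ L a b h T :=
          mem_of_infix (A_infix (s := h / 2 - 2 - c) (by omega)) (by simp [fA])
        have e := X_congr R (z := ((2 * c : ℕ) : ℤ))
          (z' := h - 4 - 2 * ((h / 2 - 2 - c : ℕ) : ℤ)) 0 (by omega)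
        rw [e]; exact hm
      · have : c = 0 ∨ c = 1 := by omega
        rcases this with rfl | rfl
        · exact J2m _ (by simp [J2])
        · exact J1m _ (by simp [J1])
    · by_cases h2 : h + 6 ≤ 2 * c
      · have hm : X a (-2 - 2 * ((h - 1 - c : ℕ) : ℤ)) ∈ L a b h T :=
          mem_of_infix (B_infix (s := h - 1 - c) (by omega)) (by simp [fB])
        have e := X_congr R (z := ((2 * c : ℕ) : ℤ))
          (z' := -2 - 2 * ((h - 1 - c : ℕ) : ℤ)) 1 (by omega)
        rw [e]; exact hm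
      · have : 2 * c = h - 2 ∨ 2 * c = h ∨ 2 * c = h + 2 ∨ 2 * c = h + 4 := by omega
        rcases this with e | e | e | e
        · have e' : ((2 * c : ℕ) : ℤ) = h - 2 := by omega
          rw [e']; exact J2m _ (by simp [J2])
        · have e' : ((2 * c : ℕ) : ℤ) = h := by omega
          rw [e']; exact J1m _ (by simp [J1])
        · have e' : ((2 * c : ℕ) : ℤ) = h + 2 := by omega
          rw [e']; exact J2m _ (by simp [J2])
        · have e' : ((2 * c : ℕ) : ℤ) = h + 4 := by omega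
          rw [e']; exact J2m _ (by simp [J2])
  · -- odd
    by_cases h1 : 2 * c + 1 ≤ h + 3
    · by_cases h2 : 11 ≤ 2 * c + 1
      · have hm : X a (h + 3 - 2 * ((h / 2 + 1 - c : ℕ) : ℤ)) ∈ L a b h T :=
          mem_of_infix (A_infix (s := h / 2 + 1 - c) (by omega)) (by simp [fA])
        have e := X_congr R (z := ((2 * c + 1 : ℕ) : ℤ))
          (z' := h + 3 - 2 * ((h / 2 + 1 - c : ℕ) : ℤ)) 0 (by omega)
        rw [e]; exact hm
      · have : c = 0 ∨ c = 1 ∨ c = 2 ∨ c = 3 ∨ c = 4 := by omega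
        rcases this with rfl | rfl | rfl | rfl | rfl
        · have hm : X a (1 - 2 * ((0 : ℕ) : ℤ)) ∈ L a b h T :=
            mem_of_infix (B_infix (s := 0) (by omega)) (by simp [fB])
          simpa using hm
        · exact J1m _ (by simp [J1])
        · exact J1m _ (by simp [J1])
        · exact J2m _ (by simp [J2])
        · exact J2m _ (by simp [J2])
    · by_cases h2 : h + 9 ≤ 2 * c + 1
      · have hm : X a (1 - 2 * ((h - c : ℕ) : ℤ)) ∈ L a b h T :=
          mem_of_infix (B_infix (s := h - c) (by omega)) (by simp [fB])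
        have e := X_congr R (z := ((2 * c + 1 : ℕ) : ℤ))
          (z' := 1 - 2 * ((h - c : ℕ) : ℤ)) 1 (by omega)
        rw [e]; exact hm
      · have : 2 * c + 1 = h + 5 ∨ 2 * c + 1 = h + 7 := by omega
        rcases this with e | e
        · have e' : ((2 * c + 1 : ℕ) : ℤ) = h + 5 := by omega
          rw [e']; exact J2m _ (by simp [J2])
        · have e' : ((2 * c + 1 : ℕ) : ℤ) = h + 7 := by omega
          rw [e']; exact J2m _ (by simp [J2])

/-- All `Y κ` are listed. -/
theorem Y_mem (R : Rel a b h) (hT : h = 2 * T + 6) (h4 : h % 4 = 0) (κ : ℕ) (hκ : κ < 2 * h) :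
    Y a b κ ∈ L a b h T := by
  have J1m : ∀ x ∈ J1 a b h, x ∈ L a b h T := fun x hx => mem_of_infix J1_infix' hx
  have J2m : ∀ x ∈ J2 a b h, x ∈ L a b h T := fun x hx => mem_of_infix J2_infix' hx
  rcases Nat.even_or_odd' κ with ⟨c, rfl | rfl⟩
  · -- even
    by_cases h1 : 2 * c ≤ h
    · by_cases h2 : 8 ≤ 2 * c
      · have hm : Y a b (h - 2 * ((h / 2 - c : ℕ) : ℤ)) ∈ L a b h T :=
          mem_of_infix (B_infix (s := h / 2 - c) (by omega)) (by simp [fB])
        have e := Y_congr R (z := ((2 * c : ℕ) : ℤ))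
          (z' := h - 2 * ((h / 2 - c : ℕ) : ℤ)) 0 (by omega)
        rw [e]; exact hm
      · have : c = 0 ∨ c = 1 ∨ c = 2 ∨ c = 3 := by omega
        rcases this with rfl | rfl | rfl | rfl
        · have hm : Y a b (h + 8 + 2 * ((T - 1 : ℕ) : ℤ)) ∈ L a b h T :=
            mem_of_infix (B_infix (s := T - 1) (by omega)) (by simp [fB])
          have e := Y_congr R (z := ((2 * 0 : ℕ) : ℤ))
            (z' := h + 8 + 2 * ((T - 1 : ℕ) : ℤ)) (-1) (by omega)
          rw [e]; exact hm
        · exact J2m _ (by simp [J2])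
        · exact J1m _ (by simp [J1])
        · exact J2m _ (by simp [J2])
    · by_cases h2 : h + 8 ≤ 2 * c
      · have hm : Y a b (h + 8 + 2 * ((c - 4 - h / 2 : ℕ) : ℤ)) ∈ L a b h T :=
          mem_of_infix (B_infix (s := c - 4 - h / 2) (by omega)) (by simp [fB])
        have e := Y_congr R (z := ((2 * c : ℕ) : ℤ))
          (z' := h + 8 + 2 * ((c - 4 - h / 2 : ℕ) : ℤ)) 0 (by omega)
        rw [e]; exact hm
      · have : 2 * c = h + 2 ∨ 2 * c = h + 4 ∨ 2 * c = h + 6 := by omega
        rcases this with e | e | e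
        · have e' : ((2 * c : ℕ) : ℤ) = h + 2 := by omega
          rw [e']; exact J1m _ (by simp [J1])
        · have e' : ((2 * c : ℕ) : ℤ) = h + 4 := by omega
          rw [e']; exact J2m _ (by simp [J2])
        · have e' : ((2 * c : ℕ) : ℤ) = h + 6 := by omega
          rw [e']; exact J1m _ (by simp [J1])
  · -- odd
    by_cases h1 : 2 * c + 1 ≤ h + 1
    · by_cases h2 : 9 ≤ 2 * c + 1
      · have hm : Y a b (9 + 2 * ((c - 4 : ℕ) : ℤ)) ∈ L a b h T :=
          mem_of_infix (A_infix (s := c - 4) (by omega)) (by simp [fA])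
        have e := Y_congr R (z := ((2 * c + 1 : ℕ) : ℤ))
          (z' := 9 + 2 * ((c - 4 : ℕ) : ℤ)) 0 (by omega)
        rw [e]; exact hm
      · have : c = 0 ∨ c = 1 ∨ c = 2 ∨ c = 3 := by omega
        rcases this with rfl | rfl | rfl | rfl
        · by_cases hT1 : T = 1
          · subst hT1
            -- `h = 8`: `Y 1 = Y (9 + 2*0 + ...)`; here `Y 1 = Y (h + 9)`
            have e := Y_congr R (z := ((2 * 0 + 1 : ℕ) : ℤ)) (z' := h + 9) (-1) (by omega)
            rw [e]; exact J2m _ (by simp [J2])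
          · have hm : Y a b (3 - 2 * ((1 : ℕ) : ℤ)) ∈ L a b h T :=
              mem_of_infix (A_infix (s := 1) (by omega)) (by simp [fA])
            simpa using hm
        · have hm : Y a b (3 - 2 * ((0 : ℕ) : ℤ)) ∈ L a b h T :=
            mem_of_infix (A_infix (s := 0) (by omega)) (by simp [fA])
          simpa using hm
        · exact J2m _ (by simp [J2])
        · exact J1m _ (by simp [J1])
    · by_cases h2 : h + 11 ≤ 2 * c + 1
      · have hm : Y a b (3 - 2 * ((h + 1 - c : ℕ) : ℤ)) ∈ L a b h T :=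
          mem_of_infix (A_infix (s := h + 1 - c) (by omega)) (by simp [fA])
        have e := Y_congr R (z := ((2 * c + 1 : ℕ) : ℤ))
          (z' := 3 - 2 * ((h + 1 - c : ℕ) : ℤ)) 1 (by omega)
        rw [e]; exact hm
      · have : 2 * c + 1 = h + 3 ∨ 2 * c + 1 = h + 5 ∨ 2 * c + 1 = h + 7 ∨ 2 * c + 1 = h + 9 := by
          omega
        rcases this with e | e | e | e
        · have e' : ((2 * c + 1 : ℕ) : ℤ) = h + 3 := by omega
          rw [e']; exact J2m _ (by simp [J2])
        · have e' : ((2 * c + 1 : ℕ) : ℤ) = h + 5 := by omega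
          rw [e']; exact J2m _ (by simp [J2])
        · have e' : ((2 * c + 1 : ℕ) : ℤ) = h + 7 := by omega
          rw [e']; exact J1m _ (by simp [J1])
        · have e' : ((2 * c + 1 : ℕ) : ℤ) = h + 9 := by omega
          rw [e']; exact J2m _ (by simp [J2])

/-! ### Products -/

theorem prodA12 (R : Rel a b h) {s : ℕ} (hs : s < T) :
    Y a b (h - 1 - 4 * s) ∈ cyc (L a b h T) := by
  have hi : [X a (h - 4 - 2 * s), Y a b (3 - 2 * s)] <:+: L a b h T :=
    List.IsInfix.trans ⟨[], [Y a b (9 + 2 * s), X a (h + 3 - 2 * s)], rfl⟩ (A_infix hs)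
  have := mem_cyc_of_infix hi
  rw [XY] at this
  rwa [Y_congr R (z := h - 1 - 4 * s) (z' := h - 4 - 2 * s + (3 - 2 * s)) 0 (by ring)]

theorem prodA23 (R : Rel a b h) {s : ℕ} (hs : s < T) :
    X a (h - 6 - 4 * s) ∈ cyc (L a b h T) := by
  have hi : [Y a b (3 - 2 * s), Y a b (9 + 2 * s)] <:+: L a b h T :=
    List.IsInfix.trans ⟨[X a (h - 4 - 2 * s)], [X a (h + 3 - 2 * s)], rfl⟩ (A_infix hs)
  have := mem_cyc_of_infix hi
  rw [YY_odd R _ ⟨4 + s, by ring⟩] at this
  rwa [X_congr R (z := h - 6 - 4 * s) (z' := 3 - 2 * s - (9 + 2 * s) + h) 0 (by ring)]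

theorem prodA34 (R : Rel a b h) {s : ℕ} (hs : s < T) :
    Y a b (6 + 4 * s) ∈ cyc (L a b h T) := by
  have hi : [Y a b (9 + 2 * s), X a (h + 3 - 2 * s)] <:+: L a b h T :=
    List.IsInfix.trans ⟨[X a (h - 4 - 2 * s), Y a b (3 - 2 * s)], [], rfl⟩ (A_infix hs)
  have := mem_cyc_of_infix hi
  obtain ⟨c, hc⟩ := R.even
  rw [YX_odd R _ ⟨c + 1 - s, by rw [hc]; push_cast; ring⟩] at this
  rwa [Y_congr R (z := 6 + 4 * s) (z' := 9 + 2 * s - (h + 3 - 2 * s) + h) 0 (by ring)]

theorem prodA41 (R : Rel a b h) {s : ℕ} (hs : s + 1 < T) :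
    X a (-3 - 4 * s) ∈ cyc (L a b h T) := by
  have hi : [X a (h + 3 - 2 * s), X a (h - 4 - 2 * ((s + 1 : ℕ) : ℤ))] <:+: L a b h T :=
    List.IsInfix.trans ⟨[X a (h - 4 - 2 * s), Y a b (3 - 2 * s), Y a b (9 + 2 * s)],
      [Y a b (3 - 2 * ((s + 1 : ℕ) : ℤ)), Y a b (9 + 2 * ((s + 1 : ℕ) : ℤ)),
        X a (h + 3 - 2 * ((s + 1 : ℕ) : ℤ))], rfl⟩ (AA_infix hs)
  have := mem_cyc_of_infix hi
  rw [XX] at this
  rwa [X_congr R (z := -3 - 4 * s) (z' := h + 3 - 2 * s + (h - 4 - 2 * ((s + 1 : ℕ) : ℤ))) (-1)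
    (by push_cast; ring)]

theorem prodB12 (R : Rel a b h) {s : ℕ} (hs : s < T) :
    X a (-1 - 4 * s) ∈ cyc (L a b h T) := by
  have hi : [X a (-2 - 2 * s), X a (1 - 2 * s)] <:+: L a b h T :=
    List.IsInfix.trans ⟨[], [Y a b (h - 2 * s), Y a b (h + 8 + 2 * s)], rfl⟩ (B_infix hs)
  have := mem_cyc_of_infix hi
  rw [XX] at this
  rwa [X_congr R (z := -1 - 4 * s) (z' := -2 - 2 * s + (1 - 2 * s)) 0 (by ring)]

theorem prodB23 (R : Rel a b h) {s : ℕ} (hs : s < T) :
    Y a b (h + 1 - 4 * s) ∈ cyc (L a b h T) := by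
  have hi : [X a (1 - 2 * s), Y a b (h - 2 * s)] <:+: L a b h T :=
    List.IsInfix.trans ⟨[X a (-2 - 2 * s)], [Y a b (h + 8 + 2 * s)], rfl⟩ (B_infix hs)
  have := mem_cyc_of_infix hi
  rw [XY] at this
  rwa [Y_congr R (z := h + 1 - 4 * s) (z' := 1 - 2 * s + (h - 2 * s)) 0 (by ring)]

theorem prodB34 (R : Rel a b h) {s : ℕ} (hs : s < T) :
    X a (-8 - 4 * s) ∈ cyc (L a b h T) := by
  have hi : [Y a b (h - 2 * s), Y a b (h + 8 + 2 * s)] <:+: L a b h T :=
    List.IsInfix.trans ⟨[X a (-2 - 2 * s), X a (1 - 2 * s)], [], rfl⟩ (B_infix hs)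
  have := mem_cyc_of_infix hi
  obtain ⟨c, hc⟩ := R.even
  rw [YY_even R _ ⟨c + 4 + s, by rw [hc]; push_cast; ring⟩] at this
  rwa [X_congr R (z := -8 - 4 * s) (z' := h - 2 * s - (h + 8 + 2 * s)) 0 (by ring)]

theorem prodB41 (R : Rel a b h) {s : ℕ} (hs : s + 1 < T) :
    Y a b (h + 12 + 4 * s) ∈ cyc (L a b h T) := by
  have hi : [Y a b (h + 8 + 2 * s), X a (-2 - 2 * ((s + 1 : ℕ) : ℤ))] <:+: L a b h T :=
    List.IsInfix.trans ⟨[X a (-2 - 2 * s), X a (1 - 2 * s), Y a b (h - 2 * s)],
      [X a (1 - 2 * ((s + 1 : ℕ) : ℤ)), Y a b (h - 2 * ((s + 1 : ℕ) : ℤ)),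
        Y a b (h + 8 + 2 * ((s + 1 : ℕ) : ℤ))], rfl⟩ (BB_infix hs)
  have := mem_cyc_of_infix hi
  rw [YX_even R _ ⟨-2 - s, by push_cast; ring⟩] at this
  rwa [Y_congr R (z := h + 12 + 4 * s)
    (z' := h + 8 + 2 * s - (-2 - 2 * ((s + 1 : ℕ) : ℤ))) 0 (by push_cast; ring)]

theorem X_mem_of (R : Rel a b h) {S : List G} {z z' : ℤ} (hm : X a z' ∈ S) (t : ℤ)
    (ht : z = z' + 2 * h * t) : X a z ∈ S := by
  rw [X_congr R t ht]; exact hm

theorem Y_mem_of (R : Rel a b h) {S : List G} {z z' : ℤ} (hm : Y a b z' ∈ S) (t : ℤ)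
    (ht : z = z' + 2 * h * t) : Y a b z ∈ S := by
  rw [Y_congr R t ht]; exact hm

theorem zip_mem_cyc {l l' : List G} (hi : l <:+: l') :
    ∀ z ∈ List.zipWith (· * ·) l l.tail, z ∈ cyc l' := by
  induction l with
  | nil => intro z hz; simp at hz
  | cons x l ih =>
    intro z hz
    rcases l with _ | ⟨y, l⟩
    · simp at hz
    · simp only [List.tail_cons, List.zipWith_cons_cons, List.mem_cons] at hz
      rcases hz with rfl | hz
      · exact mem_cyc_of_infix (List.IsInfix.trans ⟨[], l, rfl⟩ hi)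
      · exact ih (List.IsInfix.trans ⟨[x], [], by simp⟩ hi) z hz

set_option maxHeartbeats 1000000 in
/-- The products along the connecting segments. -/
theorem junk (R : Rel a b h) (hT : h = 2 * T + 6) (hT1 : 1 ≤ T) :
    ∀ x ∈ [X a 13, X a 5, Y a b (h + 9), X a 4, X a (h - 2), Y a b (h + 4), Y a b (h + 7), X a 0, Y a b 2, X a 3, Y a b (h - 4), X a 11, Y a b (h + 13), Y a b (h + 8), Y a b (h + 3), X a (2 * h - 4), X a (h + 6), Y a b (2 * h - 6), X a 9, Y a b (h + 5), Y a b (2 * h - 2), Y a b (h + 11), X a (h + 2), Y a b h, X a 7, X a 1],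
      x ∈ cyc (L a b h T) := by
  have hev := R.even
  have hevZ : Even (h : ℤ) := by exact_mod_cast hev
  have q1 := zip_mem_cyc (J1_infix (a := a) (b := b) (h := h) hT1)
  have q2 := zip_mem_cyc (J2_infix (a := a) (b := b) (h := h) hT1)
  have hodd : ∀ k : ℤ, Odd k → Odd ((h : ℤ) + k) := fun k hk => hevZ.add_odd hk
  have hevn : ∀ k : ℤ, Even k → Even ((h : ℤ) + k) := fun k hk => hevZ.add hk
  simp only [fA, fB, J1, J2, List.cons_append, List.nil_append, List.tail_cons,
    List.zipWith_cons_cons, List.zipWith_nil_right] at q1 q2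
  intro x hx
  simp only [List.mem_cons, List.not_mem_nil, or_false] at hx
  rcases hx with rfl | rfl | rfl | rfl | rfl | rfl | rfl | rfl | rfl | rfl | rfl | rfl | rfl | rfl | rfl | rfl | rfl | rfl | rfl | rfl | rfl | rfl | rfl | rfl | rfl | rfl
  · have hm := q1 (X a (h + 3 - 2 * ((T - 1 : ℕ) : ℤ)) * X a 2) (by simp)
    rw [XX] at hm
    exact X_mem_of R hm (0) (by omega)
  · have hm := q1 (X a 2 * X a 3) (by simp)
    rw [XX] at hm
    exact X_mem_of R hm (0) (by omega)
  · have hm := q1 (X a 3 * Y a b (h + 6)) (by simp)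
    rw [XY] at hm
    exact Y_mem_of R hm (0) (by omega)
  · have hm := q1 (Y a b (h + 6) * Y a b (h + 2)) (by simp)
    rw [YY_even R _ (hevn 2 (by decide))] at hm
    exact X_mem_of R hm (0) (by omega)
  · have hm := q1 (Y a b (h + 2) * Y a b 4) (by simp)
    rw [YY_even R _ (by decide)] at hm
    exact X_mem_of R hm (0) (by omega)
  · have hm := q1 (Y a b 4 * X a h) (by simp)
    rw [YX_even R _ hevZ] at hm
    exact Y_mem_of R hm (1) (by omega)
  · have hm := q1 (X a h * Y a b 7) (by simp)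
    rw [XY] at hm
    exact Y_mem_of R hm (0) (by omega)
  · have hm := q1 (Y a b 7 * Y a b (h + 7)) (by simp)
    rw [YY_odd R _ (hodd 7 (by decide))] at hm
    exact X_mem_of R hm (0) (by omega)
  · have hm := q1 (Y a b (h + 7) * X a 5) (by simp)
    rw [YX_odd R _ (by decide)] at hm
    exact Y_mem_of R hm (-1) (by omega)
  · have hm := q1 (X a 5 * X a (-2 - 2 * ((0 : ℕ) : ℤ))) (by simp)
    rw [XX] at hm
    exact X_mem_of R hm (0) (by omega)
  · have hm := q2 (Y a b (h + 8 + 2 * ((T - 1 : ℕ) : ℤ)) * X a (h + 4)) (by simp)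
    rw [YX_even R _ (hevn 4 (by decide))] at hm
    exact Y_mem_of R hm (0) (by omega)
  · have hm := q2 (X a (h + 4) * X a (h + 7)) (by simp)
    rw [XX] at hm
    exact X_mem_of R hm (-1) (by omega)
  · have hm := q2 (X a (h + 7) * Y a b 6) (by simp)
    rw [XY] at hm
    exact Y_mem_of R hm (0) (by omega)
  · have hm := q2 (Y a b 6 * X a (h - 2)) (by simp)
    rw [YX_even R _ (by have := hevn (-2) (by decide); rwa [← sub_eq_add_neg] at this)] at hm
    exact Y_mem_of R hm (1) (by omega)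
  · have hm := q2 (X a (h - 2) * Y a b 5) (by simp)
    rw [XY] at hm
    exact Y_mem_of R hm (0) (by omega)
  · have hm := q2 (Y a b 5 * Y a b (h + 9)) (by simp)
    rw [YY_odd R _ (hodd 9 (by decide))] at hm
    exact X_mem_of R hm (1) (by omega)
  · have hm := q2 (Y a b (h + 9) * Y a b (h + 3)) (by simp)
    rw [YY_odd R _ (hodd 3 (by decide))] at hm
    exact X_mem_of R hm (0) (by omega)
  · have hm := q2 (Y a b (h + 3) * X a 9) (by simp)
    rw [YX_odd R _ (by decide)] at hm
    exact Y_mem_of R hm (0) (by omega)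
  · have hm := q2 (X a 9 * X a 0) (by simp)
    rw [XX] at hm
    exact X_mem_of R hm (0) (by omega)
  · have hm := q2 (X a 0 * Y a b (h + 5)) (by simp)
    rw [XY] at hm
    exact Y_mem_of R hm (0) (by omega)
  · have hm := q2 (Y a b (h + 5) * X a 7) (by simp)
    rw [YX_odd R _ (by decide)] at hm
    exact Y_mem_of R hm (0) (by omega)
  · have hm := q2 (X a 7 * Y a b (h + 4)) (by simp)
    rw [XY] at hm
    exact Y_mem_of R hm (0) (by omega)
  · have hm := q2 (Y a b (h + 4) * Y a b 2) (by simp)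
    rw [YY_even R _ (by decide)] at hm
    exact X_mem_of R hm (0) (by omega)
  · have hm := q2 (Y a b 2 * X a (h + 2)) (by simp)
    rw [YX_even R _ (hevn 2 (by decide))] at hm
    exact Y_mem_of R hm (1) (by omega)
  · have hm := q2 (X a (h + 2) * X a (h + 5)) (by simp)
    rw [XX] at hm
    exact X_mem_of R hm (-1) (by omega)
  · have hm := mem_cyc_last (head_L (a := a) (b := b) (h := h) hT1)
      (last_L (a := a) (b := b) (h := h) (T := T))
    rw [XX] at hm
    exact X_mem_of R hm (-1) (by omega)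

/-- All `X κ` are cyclic products. -/
theorem X_cyc (R : Rel a b h) (hT : h = 2 * T + 6) (hT1 : 1 ≤ T) (h4 : h % 4 = 0) (κ : ℕ)
    (hκ : κ < 2 * h) : X a κ ∈ cyc (L a b h T) := by
  have J := junk R hT hT1
  have hr : κ % 4 = 0 ∨ κ % 4 = 1 ∨ κ % 4 = 2 ∨ κ % 4 = 3 := by omega
  rcases hr with hr | hr | hr | hr
  · by_cases h1 : 8 ≤ κ ∧ κ + 8 ≤ 2 * h
    · exact X_mem_of R (prodB34 R (s := (2 * h - 8 - κ) / 4) (by omega)) 1 (by omega)
    · have : (κ : ℤ) = 0 ∨ (κ : ℤ) = 4 ∨ (κ : ℤ) = 2 * h - 4 := by omega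
      rcases this with e | e | e
      · rw [e]; exact J _ (by simp)
      · rw [e]; exact J _ (by simp)
      · rw [e]; exact J _ (by simp)
  · by_cases h1 : 17 ≤ κ
    · exact X_mem_of R (prodA41 R (s := (2 * h - 3 - κ) / 4) (by omega)) 1 (by omega)
    · have : (κ : ℤ) = 1 ∨ (κ : ℤ) = 5 ∨ (κ : ℤ) = 9 ∨ (κ : ℤ) = 13 := by omega
      rcases this with e | e | e | e
      · rw [e]; exact J _ (by simp)
      · rw [e]; exact J _ (by simp)
      · rw [e]; exact J _ (by simp)
      · rw [e]; exact J _ (by simp)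
  · by_cases h1 : κ + 6 ≤ h
    · exact X_mem_of R (prodA23 R (s := (h - 6 - κ) / 4) (by omega)) 0 (by omega)
    · by_cases h2 : h + 10 ≤ κ
      · exact X_mem_of R (prodA23 R (s := (3 * h - 6 - κ) / 4) (by omega)) 1 (by omega)
      · have : (κ : ℤ) = h - 2 ∨ (κ : ℤ) = h + 2 ∨ (κ : ℤ) = h + 6 := by omega
        rcases this with e | e | e
        · rw [e]; exact J _ (by simp)
        · rw [e]; exact J _ (by simp)
        · rw [e]; exact J _ (by simp)
  · by_cases h1 : 15 ≤ κ
    · exact X_mem_of R (prodB12 R (s := (2 * h - 1 - κ) / 4) (by omega)) 1 (by omega)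
    · have : (κ : ℤ) = 3 ∨ (κ : ℤ) = 7 ∨ (κ : ℤ) = 11 := by omega
      rcases this with e | e | e
      · rw [e]; exact J _ (by simp)
      · rw [e]; exact J _ (by simp)
      · rw [e]; exact J _ (by simp)

/-- All `Y κ` are cyclic products. -/
theorem Y_cyc (R : Rel a b h) (hT : h = 2 * T + 6) (hT1 : 1 ≤ T) (h4 : h % 4 = 0) (κ : ℕ)
    (hκ : κ < 2 * h) : Y a b κ ∈ cyc (L a b h T) := by
  have J := junk R hT hT1
  have hr : κ % 4 = 0 ∨ κ % 4 = 1 ∨ κ % 4 = 2 ∨ κ % 4 = 3 := by omega
  rcases hr with hr | hr | hr | hr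
  · by_cases h1 : κ + 8 ≤ h
    · by_cases h8 : h = 8
      · exact Y_mem_of R (J (Y a b (h + 8)) (by simp)) (-1) (by omega)
      · exact Y_mem_of R (prodB41 R (s := (κ + h - 12) / 4) (by omega)) (-1) (by omega)
    · by_cases h2 : h + 12 ≤ κ
      · exact Y_mem_of R (prodB41 R (s := (κ - h - 12) / 4) (by omega)) 0 (by omega)
      · have : (κ : ℤ) = h - 4 ∨ (κ : ℤ) = h ∨ (κ : ℤ) = h + 4 ∨ (κ : ℤ) = h + 8 := by omega
        rcases this with e | e | e | e
        · rw [e]; exact J _ (by simp)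
        · rw [e]; exact J _ (by simp)
        · rw [e]; exact J _ (by simp)
        · rw [e]; exact J _ (by simp)
  · by_cases h1 : κ ≤ h + 1
    · by_cases h2 : 13 < κ + h
      · exact Y_mem_of R (prodB23 R (s := (h + 1 - κ) / 4) (by omega)) 0 (by omega)
      · have : (κ : ℤ) = 9 - h ∨ (κ : ℤ) = 13 - h := by omega
        rcases this with e | e
        · exact Y_mem_of R (J (Y a b (h + 9)) (by simp)) (-1) (by omega)
        · exact Y_mem_of R (J (Y a b (h + 13)) (by simp)) (-1) (by omega)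
    · by_cases h2 : h + 17 ≤ κ
      · exact Y_mem_of R (prodB23 R (s := (3 * h + 1 - κ) / 4) (by omega)) 1 (by omega)
      · have : (κ : ℤ) = h + 5 ∨ (κ : ℤ) = h + 9 ∨ (κ : ℤ) = h + 13 := by omega
        rcases this with e | e | e
        · rw [e]; exact J _ (by simp)
        · rw [e]; exact J _ (by simp)
        · rw [e]; exact J _ (by simp)
  · by_cases h1 : 6 ≤ κ ∧ κ + 10 ≤ 2 * h
    · exact Y_mem_of R (prodA34 R (s := (κ - 6) / 4) (by omega)) 0 (by omega)
    · have : (κ : ℤ) = 2 ∨ (κ : ℤ) = 2 * h - 6 ∨ (κ : ℤ) = 2 * h - 2 := by omega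
      rcases this with e | e | e
      · rw [e]; exact J _ (by simp)
      · rw [e]; exact J _ (by simp)
      · rw [e]; exact J _ (by simp)
  · by_cases h1 : κ + 1 ≤ h
    · by_cases h2 : 11 < κ + h
      · exact Y_mem_of R (prodA12 R (s := (h - 1 - κ) / 4) (by omega)) 0 (by omega)
      · exact Y_mem_of R (J (Y a b (h + 11)) (by simp)) (-1) (by omega)
    · by_cases h2 : h + 15 ≤ κ
      · exact Y_mem_of R (prodA12 R (s := (3 * h - 1 - κ) / 4) (by omega)) 1 (by omega)
      · have : (κ : ℤ) = h + 3 ∨ (κ : ℤ) = h + 7 ∨ (κ : ℤ) = h + 11 := by omega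
        rcases this with e | e | e
        · rw [e]; exact J _ (by simp)
        · rw [e]; exact J _ (by simp)
        · rw [e]; exact J _ (by simp)

end Cover

/-! ### The case `h = 4` -/

/-- The listing for `h = 4` (the group of order 16). -/
def L4 (a b : G) : List G :=
  [X a 0, X a 4, Y a b 4, X a 3, Y a b 7, Y a b 5, Y a b 1, Y a b 3, Y a b 6, X a 7, Y a b 0,
    X a 2, Y a b 2, X a 5, X a 6, X a 1]

theorem X_mem4 {a b : G} (κ : ℕ) (hκ : κ < 8) : X a κ ∈ L4 a b := by
  interval_cases κ <;> simp [L4]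

theorem Y_mem4 {a b : G} (κ : ℕ) (hκ : κ < 8) : Y a b κ ∈ L4 a b := by
  interval_cases κ <;> simp [L4]

theorem junk4 {a b : G} (R : Rel a b 4) :
    ∀ x ∈ [X a 4, Y a b 0, Y a b 5, Y a b 2, X a 6, X a 0, X a 2, X a 5, Y a b 3, Y a b 7,
      Y a b 6, Y a b 4, Y a b 1, X a 3, X a 7, X a 1], x ∈ cyc (L4 a b) := by
  have hi : L4 a b <:+: L4 a b := List.infix_refl _
  have q := zip_mem_cyc hi
  simp only [L4, List.tail_cons, List.zipWith_cons_cons, List.zipWith_nil_right] at q
  intro x hx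
  simp only [List.mem_cons, List.not_mem_nil, or_false] at hx
  rcases hx with rfl | rfl | rfl | rfl | rfl | rfl | rfl | rfl | rfl | rfl | rfl | rfl | rfl |
    rfl | rfl | rfl
  · have hm := q (X a 0 * X a 4) (by simp)
    rw [XX] at hm
    exact X_mem_of R hm 0 (by norm_num)
  · have hm := q (X a 4 * Y a b 4) (by simp)
    rw [XY] at hm
    exact Y_mem_of R hm (-1) (by norm_num)
  · have hm := q (Y a b 4 * X a 3) (by simp)
    rw [YX_odd R _ (by decide)] at hm
    exact Y_mem_of R hm 0 (by norm_num)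
  · have hm := q (X a 3 * Y a b 7) (by simp)
    rw [XY] at hm
    exact Y_mem_of R hm (-1) (by norm_num)
  · have hm := q (Y a b 7 * Y a b 5) (by simp)
    rw [YY_odd R _ (by decide)] at hm
    exact X_mem_of R hm 0 (by norm_num)
  · have hm := q (Y a b 5 * Y a b 1) (by simp)
    rw [YY_odd R _ (by decide)] at hm
    exact X_mem_of R hm (-1) (by norm_num)
  · have hm := q (Y a b 1 * Y a b 3) (by simp)
    rw [YY_odd R _ (by decide)] at hm
    exact X_mem_of R hm 0 (by norm_num)
  · have hm := q (Y a b 3 * Y a b 6) (by simp)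
    rw [YY_even R _ (by decide)] at hm
    exact X_mem_of R hm 1 (by norm_num)
  · have hm := q (Y a b 6 * X a 7) (by simp)
    rw [YX_odd R _ (by decide)] at hm
    exact Y_mem_of R hm 0 (by norm_num)
  · have hm := q (X a 7 * Y a b 0) (by simp)
    rw [XY] at hm
    exact Y_mem_of R hm 0 (by norm_num)
  · have hm := q (Y a b 0 * X a 2) (by simp)
    rw [YX_even R _ (by decide)] at hm
    exact Y_mem_of R hm 1 (by norm_num)
  · have hm := q (X a 2 * Y a b 2) (by simp)
    rw [XY] at hm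
    exact Y_mem_of R hm 0 (by norm_num)
  · have hm := q (Y a b 2 * X a 5) (by simp)
    rw [YX_odd R _ (by decide)] at hm
    exact Y_mem_of R hm 0 (by norm_num)
  · have hm := q (X a 5 * X a 6) (by simp)
    rw [XX] at hm
    exact X_mem_of R hm (-1) (by norm_num)
  · have hm := q (X a 6 * X a 1) (by simp)
    rw [XX] at hm
    exact X_mem_of R hm 0 (by norm_num)
  · have hm := mem_cyc_last (l := L4 a b) (x := X a 0) (y := X a 1) (by simp [L4]) (by simp [L4])
    rw [XX] at hm
    exact X_mem_of R hm 0 (by norm_num)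

theorem X_cyc4 {a b : G} (R : Rel a b 4) (κ : ℕ) (hκ : κ < 8) : X a κ ∈ cyc (L4 a b) := by
  have J := junk4 R
  interval_cases κ <;> exact J _ (by simp)

theorem Y_cyc4 {a b : G} (R : Rel a b 4) (κ : ℕ) (hκ : κ < 8) : Y a b κ ∈ cyc (L4 a b) := by
  have J := junk4 R
  interval_cases κ <;> exact J _ (by simp)

/-- A listing with the right length that covers the group and whose cyclic products cover the
group is a harmonious listing. -/
theorem harmonious_of_cover [Finite G] (l : List G) (hlen : l.length = Nat.card G)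
    (h1 : ∀ g : G, g ∈ l) (h2 : ∀ g : G, g ∈ cyc l) :
    ∃ l : List G, l.Nodup ∧ (∀ g : G, g ∈ l) ∧
      (List.zipWith (· * ·) l (l.rotate 1)).Nodup := by
  classical
  have := Fintype.ofFinite G
  have key : ∀ l : List G, l.length = Nat.card G → (∀ g : G, g ∈ l) → l.Nodup := by
    intro l hl hc
    have h3 : (l : Multiset G).toFinset = Finset.univ := by
      ext g; simp [hc g]
    have h4 : (l : Multiset G).toFinset.card = Multiset.card (l : Multiset G) := by
      rw [h3, Finset.card_univ, Multiset.coe_card, hl, Nat.card_eq_fintype_card]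
    exact Multiset.coe_nodup.1 (Multiset.toFinset_card_eq_card_iff_nodup.1 h4)
  exact ⟨l, key l hlen h1, h1, key (cyc l) (by rw [length_cyc, hlen]) h2⟩

end Pool.Agent.Lib.Helper71.SD
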